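import Mathlib
import Pool.Agent.Lib.P0c8ca5V.Opm

/-!
# P0c8ca5Ab: the weight conjecture modulo p for blocks with abelian defect groups

The key statement: `G` finite, `O_p(G) = 1`, `w = u d` with `u` of order `p`, `S` an abelian
p-subgroup of `C_G(w)` containing `u`. Then `p * |S|` divides the number of the pairs `(a, b)` with
`[a, b] = w` that generate a subgroup containing all p-regular elements.

* `Hy p k S w`: the hypotheses; `k` is a number prime to `p` such that all `g ^ k` are p-elements;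
* `Pw p w a b`: `(a, b)` is such a pair;
* `cq k a b = (b a b⁻¹) ^ k`;
* `RS S k a b n`: `R_0 = 1`, `R_(n+1)` consists of the `y` in `C_S(a)` with
  `[y, b] ∈ R_n ⟨cq k a b⟩`; `Qg` is the union of the `R_n`, `Vg = Qg ⟨cq k a b⟩`.
-/

namespace Pool.Agent.Lib.P0c8ca5.Ab

section
variable {G : Type*} [Group G]

/-- all p-subgroups of the centralizer of `d` are abelian -/
def AbC (p : ℕ) (d : G) : Prop :=
  ∀ P : Subgroup G, IsPGroup p P → (∀ x ∈ P, x * d = d * x) → ∀ x ∈ P, ∀ y ∈ P, x * y = y * x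

/-- the hypotheses on the group, the commutator and the abelian p-subgroup -/
structure Hy (p k : ℕ) (S : Subgroup G) (w : G) : Prop where
  no : NoP p (⊤ : Subgroup G)
  pS : IsPGroup p S
  ab : ∀ x ∈ S, ∀ y ∈ S, x * y = y * x
  cw : ∀ x ∈ S, x * w = w * x
  pk : ∀ g : G, Pel p (g ^ k)

/-- pairs with commutator `w` generating all p-regular elements -/
structure Pw (p : ℕ) (w a b : G) : Prop where
  cm : cmt a b = w
  ge : ∀ g : G, Preg p g → g ∈ Subgroup.closure ({a, b} : Set G)

/-- the p-element `(b a b⁻¹) ^ k` -/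
def cq (k : ℕ) (a b : G) : G := (b * a * b⁻¹) ^ k

/-- the filtration -/
def RS (S : Subgroup G) (k : ℕ) (a b : G) : ℕ → Set G
  | 0 => {1}
  | n + 1 => {y | y ∈ S ∧ y * a = a * y ∧ ∃ z ∈ RS S k a b n, ∃ j : ℤ,
      y * b * y⁻¹ * b⁻¹ = z * cq k a b ^ j}

/-- the union of the filtration (a subgroup, `mem_Qg`) -/
def Qg (S : Subgroup G) (k : ℕ) (a b : G) : Subgroup G :=
  Subgroup.closure {y | ∃ n, y ∈ RS S k a b n}

/-- the product of `Qg` and the group generated by `cq k a b` (a subgroup, `mem_Vg`) -/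
def Vg (S : Subgroup G) (k : ℕ) (a b : G) : Subgroup G :=
  Subgroup.closure {v | ∃ y ∈ Qg S k a b, ∃ j : ℤ, v = y * cq k a b ^ j}

end

end Pool.Agent.Lib.P0c8ca5.Ab
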