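import Mathlib
import Pool.Agent.Lib.P0c8ca5Ab.Defs

/-!
# FilA: the filtration

PROOF. Always `S` is abelian and commutes with `w = cmt a b`; so an element `y` of `S` commuting with `a` commutes with `b a b⁻¹ = w⁻¹ a` (as `cmt a b = a (b a b⁻¹)⁻¹`), hence with `cq k a b`. `RS_sub`: `RS n ⊆ S`, commuting with `a`. `RS_mono`: by induction. Products: by induction on `n`,
for `y, y' ∈ RS (n+1)`: `[y y', b] = y [y', b] y⁻¹ [y, b] = [y', b] [y, b]` because `y` commutes with `z' * cq ^ j'` (`z' ∈ RS n ⊆ S`), and `[y', b] [y, b] = z' cq ^ j' z cq ^ j = (z' z) cq ^ (j' + j)`. Inverses similarly (`[y⁻¹, b] = y⁻¹ [y, b]⁻¹ y = [y, b]⁻¹`). `mem_Qg`: the union is a subgroup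
(monotone), `Subgroup.closure_induction`. `mem_Vg`: the elements of `Qg` commute with `cq k a b`. `Vg_comm`: clear. `mem_Qg_of`: if `[y, b] = z cq ^ j` with `z ∈ RS n`, then `y ∈ RS (n+1)`. `cmt_mem`: `y ∈ RS (n+1)` for some `n` (monotone).
-/

namespace Pool.Agent.Lib.P0c8ca5.Ab

section
variable {G : Type*} [Group G] {p k : ℕ} {S : Subgroup G} {w a b : G}

/-- elements commuting with `a` and `w` commute with `b a b⁻¹` -/
theorem comm_b (hc : cmt a b = w) {y : G} (hya : y * a = a * y) (hyw : y * w = w * y) :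
    y * (b * a * b⁻¹) = (b * a * b⁻¹) * y := by
  have e : b * a * b⁻¹ = w⁻¹ * a := by
    rw [← hc]
    unfold cmt
    group
  rw [e]
  exact Commute.mul_right (Commute.inv_right hyw) hya

theorem RS_sub {n : ℕ} {y : G} (h : y ∈ RS S k a b n) : y ∈ S ∧ y * a = a * y := by
  cases n with
  | zero =>
    have h' : y = 1 := h
    subst h'
    exact ⟨S.one_mem, by rw [one_mul, mul_one]⟩
  | succ n => exact ⟨h.1, h.2.1⟩

theorem one_mem_RS (n : ℕ) : (1 : G) ∈ RS S k a b n := by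
  induction n with
  | zero => exact rfl
  | succ n ih =>
    refine ⟨S.one_mem, by rw [one_mul, mul_one], 1, ih, 0, ?_⟩
    simp

namespace FilAAux

theorem RS_succ (n : ℕ) : RS S k a b n ⊆ RS S k a b (n + 1) := by
  induction n with
  | zero =>
    intro y hy
    have h' : y = 1 := hy
    subst h'
    exact one_mem_RS _
  | succ n ih =>
    rintro y ⟨h1, h2, z, hz, j, hj⟩
    exact ⟨h1, h2, z, ih hz, j, hj⟩

end FilAAux

theorem RS_mono {m n : ℕ} (h : m ≤ n) : RS S k a b m ⊆ RS S k a b n :=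
  monotone_nat_of_le_succ (f := fun n => RS S k a b n) (fun n => FilAAux.RS_succ n) h

namespace FilAAux

theorem cq_comm (hc : cmt a b = w) {y : G} (hya : y * a = a * y) (hyw : y * w = w * y) (j : ℤ) :
    Commute y (cq k a b ^ j) := by
  have h : Commute y (b * a * b⁻¹) := comm_b hc hya hyw
  exact (h.pow_right k).zpow_right j

theorem RS_comm (hy : Hy p k S w) (hc : cmt a b = w) {n : ℕ} {y z : G} (hyS : y ∈ S)
    (hya : y * a = a * y) (hz : z ∈ RS S k a b n) (j : ℤ) : Commute y (z * cq k a b ^ j) :=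
  Commute.mul_right (hy.ab y hyS z (RS_sub hz).1) (cq_comm hc hya (hy.cw y hyS) j)

theorem cq_RS (hy : Hy p k S w) (hc : cmt a b = w) {n : ℕ} {z : G}
    (hz : z ∈ RS S k a b n) (j : ℤ) : Commute z (cq k a b ^ j) :=
  cq_comm hc (RS_sub hz).2 (hy.cw z (RS_sub hz).1) j

end FilAAux

/-- `RS S k a b n` is a subgroup -/
theorem RS_mul (hy : Hy p k S w) (hc : cmt a b = w) {n : ℕ} {x y : G} (hx : x ∈ RS S k a b n)
    (hy' : y ∈ RS S k a b n) : x * y ∈ RS S k a b n := by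
  induction n generalizing x y with
  | zero =>
    have h1 : x = 1 := hx
    have h2 : y = 1 := hy'
    subst h1
    subst h2
    have : (1 : G) * 1 = 1 := one_mul 1
    rw [this]
    exact one_mem_RS 0
  | succ n ih =>
    obtain ⟨hx1, hx2, z, hz, j, hj⟩ := hx
    obtain ⟨hy1, hy2, z', hz', j', hj'⟩ := hy'
    refine ⟨S.mul_mem hx1 hy1, Commute.mul_left (a := x) (b := y) (c := a) hx2 hy2, z' * z,
      ih hz' hz, j' + j, ?_⟩
    have e : x * y * b * (x * y)⁻¹ * b⁻¹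
        = x * (y * b * y⁻¹ * b⁻¹) * x⁻¹ * (x * b * x⁻¹ * b⁻¹) := by group
    have c1 : x * (z' * cq k a b ^ j') = (z' * cq k a b ^ j') * x :=
      FilAAux.RS_comm hy hc hx1 hx2 hz' j'
    have c2 : z * cq k a b ^ j' = cq k a b ^ j' * z := FilAAux.cq_RS hy hc hz j'
    rw [e, hj, hj', c1, mul_inv_cancel_right, zpow_add]
    calc z' * cq k a b ^ j' * (z * cq k a b ^ j) = z' * (cq k a b ^ j' * z) * cq k a b ^ j := by
          simp only [mul_assoc]
      _ = z' * z * (cq k a b ^ j' * cq k a b ^ j) := by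
          rw [← c2]
          simp only [mul_assoc]

theorem RS_inv (hy : Hy p k S w) (hc : cmt a b = w) {n : ℕ} {x : G} (hx : x ∈ RS S k a b n) :
    x⁻¹ ∈ RS S k a b n := by
  induction n generalizing x with
  | zero =>
    have h1 : x = 1 := hx
    subst h1
    rw [inv_one]
    exact one_mem_RS 0
  | succ n ih =>
    obtain ⟨hx1, hx2, z, hz, j, hj⟩ := hx
    refine ⟨S.inv_mem hx1, Commute.inv_left (a := x) (b := a) hx2, z⁻¹, ih hz, -j, ?_⟩
    have e : x⁻¹ * b * x⁻¹⁻¹ * b⁻¹ = x⁻¹ * (x * b * x⁻¹ * b⁻¹)⁻¹ * x := by group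
    have c1 : x⁻¹ * (z * cq k a b ^ j)⁻¹ = (z * cq k a b ^ j)⁻¹ * x⁻¹ :=
      Commute.inv_inv (FilAAux.RS_comm hy hc hx1 hx2 hz j)
    have c2 : z⁻¹ * (cq k a b ^ j)⁻¹ = (cq k a b ^ j)⁻¹ * z⁻¹ :=
      Commute.inv_inv (FilAAux.cq_RS hy hc hz j)
    rw [e, hj, c1, inv_mul_cancel_right, mul_inv_rev, zpow_neg, c2]

theorem mem_Qg (hy : Hy p k S w) (hc : cmt a b = w) {y : G} :
    y ∈ Qg S k a b ↔ ∃ n, y ∈ RS S k a b n := by
  constructor
  · intro h
    unfold Qg at h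
    induction h using Subgroup.closure_induction with
    | mem x hx => exact hx
    | one => exact ⟨0, one_mem_RS 0⟩
    | mul x y _ _ hx hy' =>
      obtain ⟨m, hm⟩ := hx
      obtain ⟨n, hn⟩ := hy'
      exact ⟨max m n, RS_mul hy hc (RS_mono (le_max_left m n) hm)
        (RS_mono (le_max_right m n) hn)⟩
    | inv x _ hx =>
      obtain ⟨m, hm⟩ := hx
      exact ⟨m, RS_inv hy hc hm⟩
  · intro h
    exact Subgroup.subset_closure h

theorem Qg_sub (hy : Hy p k S w) (hc : cmt a b = w) {y : G} (h : y ∈ Qg S k a b) :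
    y ∈ S ∧ y * a = a * y := by
  obtain ⟨n, hn⟩ := (mem_Qg hy hc).1 h
  exact RS_sub hn

theorem mem_Vg (hy : Hy p k S w) (hc : cmt a b = w) {v : G} :
    v ∈ Vg S k a b ↔ ∃ y ∈ Qg S k a b, ∃ j : ℤ, v = y * cq k a b ^ j := by
  have cc : ∀ y ∈ Qg S k a b, ∀ j : ℤ, y * cq k a b ^ j = cq k a b ^ j * y := by
    intro y h j
    have h' := Qg_sub hy hc h
    exact FilAAux.cq_comm hc h'.2 (hy.cw y h'.1) j
  constructor
  · intro h
    unfold Vg at h
    induction h using Subgroup.closure_induction with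
    | mem x hx => exact hx
    | one => exact ⟨1, (Qg S k a b).one_mem, 0, by simp⟩
    | mul x y _ _ hx hy' =>
      obtain ⟨r, hr, i, rfl⟩ := hx
      obtain ⟨s, hs, j, rfl⟩ := hy'
      refine ⟨r * s, (Qg S k a b).mul_mem hr hs, i + j, ?_⟩
      rw [zpow_add]
      calc r * cq k a b ^ i * (s * cq k a b ^ j) = r * (cq k a b ^ i * s) * cq k a b ^ j := by
            simp only [mul_assoc]
        _ = r * s * (cq k a b ^ i * cq k a b ^ j) := by
            rw [← cc s hs i]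
            simp only [mul_assoc]
    | inv x _ hx =>
      obtain ⟨r, hr, i, rfl⟩ := hx
      refine ⟨r⁻¹, (Qg S k a b).inv_mem hr, -i, ?_⟩
      rw [cc r hr i, mul_inv_rev, zpow_neg]
  · intro h
    exact Subgroup.subset_closure h

theorem cq_mem_Vg : cq k a b ∈ Vg S k a b :=
  Subgroup.subset_closure ⟨1, (Qg S k a b).one_mem, 1, by simp⟩

theorem Qg_le_Vg : Qg S k a b ≤ Vg S k a b :=
  fun y hy => Subgroup.subset_closure ⟨y, hy, 0, by simp⟩

/-- the elements of `Vg` commute with `b a b⁻¹` -/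
theorem Vg_comm_b (hy : Hy p k S w) (hc : cmt a b = w) {v : G} (h : v ∈ Vg S k a b) :
    v * (b * a * b⁻¹) = (b * a * b⁻¹) * v := by
  obtain ⟨y, hyQ, j, rfl⟩ := (mem_Vg hy hc).1 h
  have h' := Qg_sub hy hc hyQ
  have c1 : Commute y (b * a * b⁻¹) := comm_b hc h'.2 (hy.cw y h'.1)
  have c2 : Commute (cq k a b ^ j) (b * a * b⁻¹) := by
    unfold cq
    exact ((Commute.refl (b * a * b⁻¹)).pow_left k).zpow_left j
  exact Commute.mul_left c1 c2

/-- the elements of `S` commuting with `a` commute with the elements of `Vg` -/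
theorem Vg_comm_S (hy : Hy p k S w) (hc : cmt a b = w) {v y : G} (h : v ∈ Vg S k a b)
    (hyS : y ∈ S) (hya : y * a = a * y) : y * v = v * y := by
  obtain ⟨z, hzQ, j, rfl⟩ := (mem_Vg hy hc).1 h
  have h' := Qg_sub hy hc hzQ
  exact Commute.mul_right (hy.ab y hyS z h'.1) (FilAAux.cq_comm hc hya (hy.cw y hyS) j)

theorem Vg_comm (hy : Hy p k S w) (hc : cmt a b = w) {v v' : G} (h : v ∈ Vg S k a b)
    (h' : v' ∈ Vg S k a b) : v * v' = v' * v := by
  obtain ⟨y, hyQ, j, rfl⟩ := (mem_Vg hy hc).1 h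
  have hy2 := Qg_sub hy hc hyQ
  have c1 : Commute y v' := Vg_comm_S hy hc h' hy2.1 hy2.2
  have c2 : Commute (cq k a b ^ j) v' := by
    have c3 : Commute (b * a * b⁻¹) v' := (Vg_comm_b hy hc h').symm
    exact (c3.pow_left k).zpow_left j
  exact Commute.mul_left c1 c2

theorem cmt_mem (hy : Hy p k S w) (hc : cmt a b = w) {y : G} (h : y ∈ Qg S k a b) :
    y * b * y⁻¹ * b⁻¹ ∈ Vg S k a b := by
  obtain ⟨n, hn⟩ := (mem_Qg hy hc).1 h
  obtain ⟨_, _, z, hz, j, hj⟩ := FilAAux.RS_succ n hn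
  rw [hj]
  exact (mem_Vg hy hc).2 ⟨z, (mem_Qg hy hc).2 ⟨n, hz⟩, j, rfl⟩

theorem mem_Qg_of (hy : Hy p k S w) (hc : cmt a b = w) {y : G} (hyS : y ∈ S)
    (hya : y * a = a * y) (h : y * b * y⁻¹ * b⁻¹ ∈ Vg S k a b) : y ∈ Qg S k a b := by
  obtain ⟨z, hzQ, j, hj⟩ := (mem_Vg hy hc).1 h
  obtain ⟨n, hn⟩ := (mem_Qg hy hc).1 hzQ
  exact (mem_Qg hy hc).2 ⟨n + 1, hyS, hya, z, hn, j, hj⟩

end

end Pool.Agent.Lib.P0c8ca5.Ab
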