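import Mathlib
import Pool.Agent.Lib.P0c8ca5Ab.FilA

/-!
# Act: the pairs, the action of `S`, the two braids

PROOF. `cmt`, closures of conjugated pairs (`Subgroup.closure` of the conjugates; p-regular elements are invariant under conjugation). `s1 (a, b) = (a, b a)`, `s2 (a, b) = (a b⁻¹, b)`: `cmt a (b a) = cmt a b`, `cmt (a b⁻¹) b = cmt a b` (`group`), the closures are equal. Bijective: injective on a finite type.
`braid`, `braid4`: `group` with `w = cmt a b`: `s1 s2 s1 (a, b) = (b⁻¹, b a b⁻¹) = s2 s1 s2 (a, b)`; its square is `(a⁻¹ w, w⁻¹ b⁻¹)`, its fourth power is conjugation by `w⁻¹`.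
-/

namespace Pool.Agent.Lib.P0c8ca5.Ab

section
variable {G : Type*} [Group G] {p k : ℕ} {S : Subgroup G} {w : G}

/-- the set of pairs -/
def XW (p : ℕ) (w : G) : Type _ := {y : G × G // Pw p w y.1 y.2}

instance [Finite G] : Finite (XW p w) := by unfold XW; infer_instance

theorem Pw_cj {a b s : G} (hs : s * w = w * s) (h : Pw p w a b) :
    Pw p w (s * a * s⁻¹) (s * b * s⁻¹) := by
  constructor
  · have h1 : cmt (s * a * s⁻¹) (s * b * s⁻¹) = s * cmt a b * s⁻¹ := by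
      unfold cmt
      group
    rw [h1, h.cm, hs]
    group
  · intro g hg
    have h2 : Preg p (MulAut.conj s⁻¹ g) := by
      unfold Preg at hg ⊢
      rwa [MulEquiv.orderOf_eq]
    have h3 := h.ge _ h2
    have h4 : MulAut.conj s (MulAut.conj s⁻¹ g) = g := by
      simp [MulAut.conj_apply, mul_assoc]
    rw [← h4]
    have h5 : MulAut.conj s (MulAut.conj s⁻¹ g) ∈
        (Subgroup.closure ({a, b} : Set G)).map (MulAut.conj s).toMonoidHom :=
      Subgroup.mem_map.2 ⟨_, h3, rfl⟩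
    rw [MonoidHom.map_closure] at h5
    refine Subgroup.closure_mono ?_ h5
    rintro x ⟨y, hy, rfl⟩
    simp only [Set.mem_insert_iff, Set.mem_singleton_iff] at hy ⊢
    rcases hy with rfl | rfl
    · left
      simp [MulAut.conj_apply]
    · right
      simp [MulAut.conj_apply]

theorem Pw_s1 {a b : G} (h : Pw p w a b) : Pw p w a (b * a) := by
  constructor
  · rw [← h.cm]
    unfold cmt
    group
  · intro g hg
    refine (Subgroup.closure_le _).2 ?_ (h.ge g hg)
    have ha : a ∈ Subgroup.closure ({a, b * a} : Set G) := Subgroup.subset_closure (by simp)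
    have hb : b * a ∈ Subgroup.closure ({a, b * a} : Set G) := Subgroup.subset_closure (by simp)
    rintro x hx
    simp only [Set.mem_insert_iff, Set.mem_singleton_iff] at hx
    rcases hx with rfl | rfl
    · exact ha
    · have := mul_mem hb (inv_mem ha)
      simpa [mul_assoc] using this

theorem Pw_s2 {a b : G} (h : Pw p w a b) : Pw p w (a * b⁻¹) b := by
  constructor
  · rw [← h.cm]
    unfold cmt
    group
  · intro g hg
    refine (Subgroup.closure_le _).2 ?_ (h.ge g hg)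
    have ha : a * b⁻¹ ∈ Subgroup.closure ({a * b⁻¹, b} : Set G) :=
      Subgroup.subset_closure (by simp)
    have hb : b ∈ Subgroup.closure ({a * b⁻¹, b} : Set G) := Subgroup.subset_closure (by simp)
    rintro x hx
    simp only [Set.mem_insert_iff, Set.mem_singleton_iff] at hx
    rcases hx with rfl | rfl
    · have := mul_mem ha hb
      simpa [mul_assoc] using this
    · exact hb

/-- conjugation by an element commuting with `w` -/
def cjX (s : G) (hs : s * w = w * s) (x : XW p w) : XW p w :=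
  ⟨(s * x.1.1 * s⁻¹, s * x.1.2 * s⁻¹), Pw_cj hs x.2⟩

/-- the commutative group `S` -/
@[reducible] def cgS (hy : Hy p k S w) : CommGroup ↥S :=
  { (inferInstance : Group ↥S) with mul_comm := fun x y => Subtype.ext (hy.ab x x.2 y y.2) }

/-- the action of `S` on the pairs -/
@[reducible] def actS (hy : Hy p k S w) : MulAction ↥S (XW p w) where
  smul s x := cjX (s : G) (hy.cw s s.2) x
  one_smul x := by
    apply Subtype.ext
    change (((1 : ↥S) : G) * x.1.1 * ((1 : ↥S) : G)⁻¹, ((1 : ↥S) : G) * x.1.2 * ((1 : ↥S) : G)⁻¹) = x.1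
    simp
  mul_smul s t x := by
    apply Subtype.ext
    change (((s * t : ↥S) : G) * x.1.1 * ((s * t : ↥S) : G)⁻¹,
      ((s * t : ↥S) : G) * x.1.2 * ((s * t : ↥S) : G)⁻¹) =
      ((s : G) * ((t : G) * x.1.1 * (t : G)⁻¹) * (s : G)⁻¹,
        (s : G) * ((t : G) * x.1.2 * (t : G)⁻¹) * (s : G)⁻¹)
    simp [mul_assoc]

/-- the first braid -/
def s1 (x : XW p w) : XW p w := ⟨(x.1.1, x.1.2 * x.1.1), Pw_s1 x.2⟩

/-- the second braid -/
def s2 (x : XW p w) : XW p w := ⟨(x.1.1 * x.1.2⁻¹, x.1.2), Pw_s2 x.2⟩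

theorem s1_bij [Finite G] : Function.Bijective (s1 : XW p w → XW p w) := by
  refine Finite.injective_iff_bijective.1 ?_
  rintro ⟨⟨a, b⟩, hx⟩ ⟨⟨a', b'⟩, hy⟩ h
  have h1 := congrArg Subtype.val h
  simp only [s1, Prod.mk.injEq] at h1
  obtain ⟨h2, h3⟩ := h1
  subst h2
  have h4 := mul_right_cancel h3
  subst h4
  rfl

theorem s2_bij [Finite G] : Function.Bijective (s2 : XW p w → XW p w) := by
  refine Finite.injective_iff_bijective.1 ?_
  rintro ⟨⟨a, b⟩, hx⟩ ⟨⟨a', b'⟩, hy⟩ h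
  have h1 := congrArg Subtype.val h
  simp only [s2, Prod.mk.injEq] at h1
  obtain ⟨h3, h2⟩ := h1
  subst h2
  have h4 := mul_right_cancel h3
  subst h4
  rfl

theorem s1_iter (n : ℕ) (x : XW p w) : (s1^[n] x).1 = (x.1.1, x.1.2 * x.1.1 ^ n) := by
  induction n generalizing x with
  | zero => simp
  | succ n ih =>
    rw [Function.iterate_succ_apply, ih]
    simp only [s1, Prod.mk.injEq, true_and]
    rw [mul_assoc, ← pow_succ']

theorem braid (x : XW p w) : s1 (s2 (s1 x)) = s2 (s1 (s2 x)) := by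
  apply Subtype.ext
  simp only [s1, s2, Prod.mk.injEq]
  constructor <;> group

theorem ActAux.stp (x : XW p w) : (s1 (s2 (s1 x))).1 = (x.1.2⁻¹, x.1.2 * x.1.1 * x.1.2⁻¹) := by
  have key : ∀ a b : G, (a * (b * a)⁻¹, b * a * (a * (b * a)⁻¹)) = (b⁻¹, b * a * b⁻¹) := by
    intro a b
    rw [Prod.mk.injEq]
    constructor <;> group
  exact key x.1.1 x.1.2

theorem braid4 (x : XW p w) :
    (((fun y : XW p w => s1 (s2 (s1 y)))^[4]) x).1 = (w⁻¹ * x.1.1 * w, w⁻¹ * x.1.2 * w) := by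
  have hw : x.1.1 * x.1.2 * x.1.1⁻¹ * x.1.2⁻¹ = w := x.2.cm
  have e4 : ((fun y : XW p w => s1 (s2 (s1 y)))^[4]) x =
      s1 (s2 (s1 (s1 (s2 (s1 (s1 (s2 (s1 (s1 (s2 (s1 x))))))))))) := rfl
  rw [e4, ActAux.stp, ActAux.stp, ActAux.stp, ActAux.stp, Prod.mk.injEq]
  have fin : ∀ a b v : G, a * b * a⁻¹ * b⁻¹ = v →
      ((b * a * b⁻¹ * b⁻¹ * (b * a * b⁻¹)⁻¹ * (b * a * b⁻¹)⁻¹ *
          (b * a * b⁻¹ * b⁻¹ * (b * a * b⁻¹)⁻¹)⁻¹)⁻¹ = v⁻¹ * a * v) ∧
      (b * a * b⁻¹ * b⁻¹ * (b * a * b⁻¹)⁻¹ * (b * a * b⁻¹)⁻¹ *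
          (b * a * b⁻¹ * b⁻¹ * (b * a * b⁻¹)⁻¹)⁻¹ * (b * a * b⁻¹ * b⁻¹ * (b * a * b⁻¹)⁻¹)⁻¹ *
          (b * a * b⁻¹ * b⁻¹ * (b * a * b⁻¹)⁻¹ * (b * a * b⁻¹)⁻¹ *
          (b * a * b⁻¹ * b⁻¹ * (b * a * b⁻¹)⁻¹)⁻¹)⁻¹ = v⁻¹ * b * v) := by
    intro a b v hv
    subst hv
    constructor <;> group
  exact fin _ _ _ hw

theorem braid4r (r : ℕ) (x : XW p w) :
    (((fun y : XW p w => s1 (s2 (s1 y)))^[4 * r]) x).1
      = ((w ^ r)⁻¹ * x.1.1 * w ^ r, (w ^ r)⁻¹ * x.1.2 * w ^ r) := by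
  induction r with
  | zero => simp
  | succ r ih =>
    have h1 : 4 * (r + 1) = 4 + 4 * r := by ring
    rw [h1, Function.iterate_add_apply, braid4, ih]
    simp only [Prod.mk.injEq]
    rw [pow_succ]
    constructor <;> group

theorem s1_cj (s : G) (hs : s * w = w * s) (x : XW p w) : s1 (cjX s hs x) = cjX s hs (s1 x) := by
  apply Subtype.ext
  simp only [s1, cjX, Prod.mk.injEq]
  constructor <;> group

theorem s2_cj (s : G) (hs : s * w = w * s) (x : XW p w) : s2 (cjX s hs x) = cjX s hs (s2 x) := by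
  apply Subtype.ext
  simp only [s2, cjX, Prod.mk.injEq]
  constructor <;> group

end

end Pool.Agent.Lib.P0c8ca5.Ab
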