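import Mathlib

/-!
# Tr: the transfer homomorphism of the equivariant permutations of a free action

PROOF. `exists_kap`: for an orbit `q` and `x` in it there is a unique `m` with `x = m • q.out` (free action); `κ x = m`. `trF_eq`: `x = m • q.out` for some `m`, both factors are multiplied by `m`, `m⁻¹` (`M` commutative).
`trL_comp`: `κ (T (U x)) (κ x)⁻¹ = (κ (T (U x)) (κ (U x))⁻¹) (κ (U x) (κ x)⁻¹)`; `U` induces a bijection of the orbits (`finprod_comp_equiv`, or `finprod_eq_of_bijective`), and `trF_eq`. `finprod_mul_distrib` with `Set.toFinite`. `trL_smul`: all factors are `m`.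
`card_free`: all fibres of `X → orbits` have `|M|` elements (`x = m • q.out`).
-/

namespace Pool.Agent.Lib.P0c8ca5.Ab

open MulAction

section
variable {M X : Type*} [CommGroup M] [MulAction M X]

/-- the factor of `x` -/
def trF (κ : X → M) (T : X → X) (x : X) : M := κ (T x) * (κ x)⁻¹

/-- the product over the orbits of `κ (T x) / κ x` -/
noncomputable def trL (κ : X → M) (T : X → X) : M :=
  ∏ᶠ q : orbitRel.Quotient M X, trF κ T q.out

private theorem exists_out (x : X) :
    ∃ m : M, m • (Quotient.out (Quotient.mk (orbitRel M X) x)) = x := by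
  have h : (orbitRel M X) x (Quotient.out (Quotient.mk (orbitRel M X) x)) :=
    (orbitRel M X).symm' (Quotient.mk_out (s := orbitRel M X) x)
  obtain ⟨m, hm⟩ := h
  exact ⟨m, hm⟩

private theorem mk_smul (m : M) (x : X) :
    (Quotient.mk (orbitRel M X) (m • x)) = Quotient.mk (orbitRel M X) x :=
  Quotient.sound (s := orbitRel M X) ⟨m, rfl⟩

theorem exists_kap (hfree : ∀ (m : M) (x : X), m • x = x → m = 1) :
    ∃ κ : X → M, ∀ (m : M) (x : X), κ (m • x) = m * κ x := by
  choose κ hκ using (exists_out (M := M) (X := X))
  refine ⟨κ, fun m x => ?_⟩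
  have h1 := hκ (m • x)
  rw [mk_smul] at h1
  have h2 : (m * κ x) • (Quotient.out (Quotient.mk (orbitRel M X) x)) = m • x := by
    rw [mul_smul, hκ x]
  have h3 : ((m * κ x)⁻¹ * κ (m • x)) • (Quotient.out (Quotient.mk (orbitRel M X) x)) =
      Quotient.out (Quotient.mk (orbitRel M X) x) := by
    rw [mul_smul, h1, ← h2, inv_smul_smul]
  have h4 := hfree _ _ h3
  exact (inv_mul_eq_one.mp h4).symm

theorem trF_eq {κ : X → M} (hκ : ∀ (m : M) (x : X), κ (m • x) = m * κ x) {T : X → X}
    (hT : ∀ (m : M) (x : X), T (m • x) = m • T x) (x : X) :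
    trF κ T (Quotient.out (Quotient.mk (orbitRel M X) x)) = trF κ T x := by
  obtain ⟨m, hm⟩ := exists_out (M := M) x
  set y := Quotient.out (Quotient.mk (orbitRel M X) x) with hy
  clear_value y
  subst hm
  unfold trF
  rw [hT, hκ, hκ, mul_inv, mul_mul_mul_comm, mul_inv_cancel, one_mul]

theorem trL_comp [Finite X] {κ : X → M} (hκ : ∀ (m : M) (x : X), κ (m • x) = m * κ x)
    {T U : X → X} (hT : ∀ (m : M) (x : X), T (m • x) = m • T x)
    (hU : ∀ (m : M) (x : X), U (m • x) = m • U x) (hb : Function.Bijective U) :
    trL κ (fun x => T (U x)) = trL κ T * trL κ U := by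
  have : Finite (orbitRel.Quotient M X) := Quotient.finite _
  unfold trL
  have h1 : ∀ q : orbitRel.Quotient M X,
      trF κ (fun x => T (U x)) q.out =
        trF κ T (Quotient.out (Quotient.mk (orbitRel M X) (U q.out))) * trF κ U q.out := by
    intro q
    rw [trF_eq hκ hT]
    unfold trF
    rw [mul_assoc, ← mul_assoc (κ (U q.out))⁻¹, inv_mul_cancel, one_mul]
  rw [finprod_congr h1, finprod_mul_distrib (Set.toFinite _) (Set.toFinite _)]
  congr 1
  have hsurj : Function.Surjective
      (fun q : orbitRel.Quotient M X => (Quotient.mk (orbitRel M X) (U q.out) :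
        orbitRel.Quotient M X)) := by
    intro q'
    obtain ⟨x, hx⟩ := hb.2 q'.out
    refine ⟨Quotient.mk (orbitRel M X) x, ?_⟩
    obtain ⟨m, hm⟩ := exists_out (M := M) x
    have h2 : U x = m • U (Quotient.out (Quotient.mk (orbitRel M X) x)) := by
      rw [← hU, hm]
    have h3 : (Quotient.mk (orbitRel M X) (U (Quotient.out (Quotient.mk (orbitRel M X) x)))) =
        Quotient.mk (orbitRel M X) (U x) := by
      rw [h2, mk_smul]
    show Quotient.mk (orbitRel M X) (U (Quotient.out (Quotient.mk (orbitRel M X) x))) = q'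
    rw [h3, hx]
    exact Quotient.out_eq q'
  have hbij := hsurj.bijective_of_finite
  exact finprod_eq_of_bijective _ hbij (fun _ => rfl)

theorem trL_iter [Finite X] {κ : X → M} (hκ : ∀ (m : M) (x : X), κ (m • x) = m * κ x)
    {T : X → X} (hT : ∀ (m : M) (x : X), T (m • x) = m • T x) (hb : Function.Bijective T) (n : ℕ) :
    trL κ (T^[n]) = trL κ T ^ n := by
  induction n with
  | zero =>
    unfold trL
    rw [pow_zero]
    have h : ∀ q : orbitRel.Quotient M X, trF κ (T^[0]) q.out = 1 := by
      intro q
      unfold trF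
      simp
    rw [finprod_congr h, finprod_one]
  | succ n ih =>
    have hTn : ∀ (n : ℕ) (m : M) (x : X), T^[n] (m • x) = m • T^[n] x := by
      intro n
      induction n with
      | zero => intro m x; rfl
      | succ k ihk =>
        intro m x
        rw [Function.iterate_succ_apply, hT, ihk, ← Function.iterate_succ_apply]
    have h := trL_comp hκ (hTn n) hT hb
    have h' : (T^[n+1]) = (fun x => T^[n] (T x)) := by
      funext x
      exact Function.iterate_succ_apply T n x
    rw [h', h, ih, pow_succ]

theorem trL_smul [Finite X] {κ : X → M} (hκ : ∀ (m : M) (x : X), κ (m • x) = m * κ x) (m : M) :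
    trL κ (fun x => m • x) = m ^ Nat.card (orbitRel.Quotient M X) := by
  have : Finite (orbitRel.Quotient M X) := Quotient.finite _
  have := Fintype.ofFinite (orbitRel.Quotient M X)
  unfold trL
  have h : ∀ q : orbitRel.Quotient M X, trF κ (fun x => m • x) q.out = m := by
    intro q
    unfold trF
    rw [hκ, mul_inv_cancel_right]
  rw [finprod_congr h, finprod_eq_prod_of_fintype, Finset.prod_const, Finset.card_univ,
    Nat.card_eq_fintype_card]

theorem card_free [Finite M] [Finite X] (hfree : ∀ (m : M) (x : X), m • x = x → m = 1) :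
    Nat.card X = Nat.card M * Nat.card (orbitRel.Quotient M X) := by
  have hbij : Function.Bijective
      (fun p : M × orbitRel.Quotient M X => p.1 • (Quotient.out p.2)) := by
    constructor
    · rintro ⟨m, q⟩ ⟨m', q'⟩ h
      have h' : m • Quotient.out q = m' • Quotient.out q' := h
      have hq : q = q' := by
        have h1 : (Quotient.mk (orbitRel M X) (m • Quotient.out q)) =
            Quotient.mk (orbitRel M X) (m' • Quotient.out q') := by rw [h']
        rw [mk_smul, mk_smul] at h1
        rw [← Quotient.out_eq q, ← Quotient.out_eq q']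
        exact h1
      subst hq
      have h2 : (m'⁻¹ * m) • Quotient.out q = Quotient.out q := by
        rw [mul_smul, h', inv_smul_smul]
      have h3 := hfree _ _ h2
      rw [(inv_mul_eq_one.mp h3).symm]
    · intro x
      obtain ⟨m, hm⟩ := exists_out (M := M) x
      exact ⟨(m, Quotient.mk (orbitRel M X) x), hm⟩
  rw [← Nat.card_prod]
  exact (Nat.card_congr (Equiv.ofBijective _ hbij)).symm

end

end Pool.Agent.Lib.P0c8ca5.Ab
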