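import Mathlib
import Pool.Agent.Lib.P0c8ca5Ab.Tr

/-!
# Blk: the product over one block, and the product over all blocks

PROOF. `prod_blocks`: sum over the fibres of `q ↦ B q` (for example `finprod_eq_prod_of_fintype`, `Finset.prod_fiberwise_of_maps_to` with the image in `Finset (Set Ω)`, classical): the fibre of `B q₀` is `B q₀` (`B q = B q₀` gives `q ∈ B q = B q₀`; `q ∈ B q₀` gives `B q = B q₀`).
`block_one`: let `h v = κ (φ v)`, so `h (f q * v) = ι q * h v`. The map `c ↦ [φ c.out]` from `V ⧸ f.range` to the range is a bijection: injective by `h3` (`V` commutative), surjective by `h1`. By `trF_eq`, `h2` the factor of `[φ v]` is `h (g * v) * (h v)⁻¹`. For a coset `c` let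
`c' = mk (g * c.out)`; `g * c.out = f (m c) * c'.out` for some `m c ∈ Q`; the factor of `c` is `ι (m c) * h (c'.out) * (h c.out)⁻¹`. `c ↦ c'` is a bijection of `V ⧸ f.range` (multiplication by `g`), so the product is `ι (∏ m c)`, and `f (∏ m c) = ∏ g * c.out * (c'.out)⁻¹ = g ^ |V / f Q|`
`= g ^ (|V| / |Q|) = 1`, so `∏ m c = 1`.
-/

namespace Pool.Agent.Lib.P0c8ca5.Ab

open MulAction

theorem prod_blocks {Ω M : Type*} [Finite Ω] [CommGroup M] (F : Ω → M) (B : Ω → Set Ω)
    (h1 : ∀ q, q ∈ B q) (h2 : ∀ q, ∀ q' ∈ B q, B q' = B q)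
    (h3 : ∀ q, ∏ᶠ q' ∈ B q, F q' = 1) : ∏ᶠ q, F q = 1 := by
  classical
  cases nonempty_fintype Ω
  rw [finprod_eq_prod_of_fintype]
  rw [← Finset.prod_fiberwise_of_maps_to (s := Finset.univ) (t := Finset.univ.image B) (g := B)
    (fun q _ => Finset.mem_image_of_mem _ (Finset.mem_univ q))]
  apply Finset.prod_eq_one
  intro C hC
  obtain ⟨q0, _, rfl⟩ := Finset.mem_image.1 hC
  rw [← h3 q0, ← finprod_mem_coe_finset]
  have hs : (↑(Finset.univ.filter (fun q => B q = B q0)) : Set Ω) = B q0 := by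
    ext q
    rw [Finset.coe_filter]
    constructor
    · intro hq
      rw [← hq.2]
      exact h1 q
    · intro hq
      exact ⟨Finset.mem_univ q, h2 q0 q hq⟩
  rw [hs]

namespace BlkAux

variable {V Q : Type*} [CommGroup V] [CommGroup Q]

theorem exists_q (f : Q →* V) (v : V) :
    ∃ q : Q, v = f q * (QuotientGroup.mk v : V ⧸ f.range).out := by
  have h : (QuotientGroup.mk ((QuotientGroup.mk v : V ⧸ f.range).out) : V ⧸ f.range)
      = QuotientGroup.mk v := QuotientGroup.out_eq' _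
  rw [QuotientGroup.eq] at h
  obtain ⟨q, hq⟩ := h
  refine ⟨q, ?_⟩
  rw [hq]
  rw [mul_comm, mul_inv_cancel_left]

theorem mk_f (f : Q →* V) (q : Q) (v : V) :
    (QuotientGroup.mk (f q * v) : V ⧸ f.range) = QuotientGroup.mk v := by
  rw [QuotientGroup.eq]
  refine ⟨q⁻¹, ?_⟩
  rw [map_inv, mul_inv_rev, mul_assoc, mul_comm v⁻¹, mul_assoc, mul_inv_cancel, mul_one]

end BlkAux

theorem block_one {M X V Q : Type*} [CommGroup M] [MulAction M X] [Finite X] [CommGroup V]
    [Finite V] [CommGroup Q] [Finite Q] {κ : X → M} (hκ : ∀ (m : M) (x : X), κ (m • x) = m * κ x)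
    {T : X → X} (hT : ∀ (m : M) (x : X), T (m • x) = m • T x) (φ : V → X) (g : V) (f : Q →* V)
    (hf : Function.Injective f) (ι : Q →* M) (h1 : ∀ (q : Q) (v : V), φ (f q * v) = ι q • φ v)
    (h2 : ∀ v : V, T (φ v) = φ (g * v))
    (h3 : ∀ (v v' : V) (m : M), φ v = m • φ v' → ∃ q : Q, v = f q * v')
    (h4 : g ^ (Nat.card V / Nat.card Q) = 1) :
    ∏ᶠ q ∈ Set.range (fun v : V => (Quotient.mk (orbitRel M X) (φ v))), trF κ T q.out = 1 := by
  classical
  have hfin : Finite (V ⧸ f.range) := Quotient.finite _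
  have hft : Fintype (V ⧸ f.range) := Fintype.ofFinite _
  have hΦi : Function.Injective
      (fun c : V ⧸ f.range => Quotient.mk (orbitRel M X) (φ c.out)) := by
    intro c c' h
    have h' : (orbitRel M X) (φ c.out) (φ c'.out) := Quotient.exact h
    obtain ⟨m, hm⟩ := h'
    obtain ⟨q, hq⟩ := h3 _ _ m hm.symm
    rw [← QuotientGroup.out_eq' c, hq, BlkAux.mk_f, QuotientGroup.out_eq']
  have hr : Set.range (fun v : V => (Quotient.mk (orbitRel M X) (φ v)))
      = Set.range (fun c : V ⧸ f.range => Quotient.mk (orbitRel M X) (φ c.out)) := by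
    ext x
    constructor
    · rintro ⟨v, rfl⟩
      obtain ⟨q, hq⟩ := BlkAux.exists_q f v
      refine ⟨QuotientGroup.mk v, ?_⟩
      refine (Quotient.sound (s := orbitRel M X) ⟨ι q, ?_⟩ : _).symm
      change ι q • φ _ = φ v
      rw [← h1, ← hq]
    · rintro ⟨c, rfl⟩
      exact ⟨c.out, rfl⟩
  rw [hr, finprod_mem_range hΦi]
  choose mm hmm using (fun c : V ⧸ f.range => BlkAux.exists_q f (g * c.out))
  have hc' : ∀ c : V ⧸ f.range, (QuotientGroup.mk (g * c.out) : V ⧸ f.range)
      = QuotientGroup.mk g * c := by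
    intro c
    rw [QuotientGroup.mk_mul, QuotientGroup.out_eq']
  have hfac : ∀ c : V ⧸ f.range,
      trF κ T (Quotient.out (Quotient.mk (orbitRel M X) (φ c.out)))
        = ι (mm c) * (κ (φ ((QuotientGroup.mk g * c : V ⧸ f.range)).out) * (κ (φ c.out))⁻¹) := by
    intro c
    rw [trF_eq hκ hT]
    unfold trF
    rw [h2, hmm c, h1, hκ, hc', mul_assoc]
  rw [finprod_congr hfac, finprod_eq_prod_of_fintype, Finset.prod_mul_distrib,
    Finset.prod_mul_distrib, Finset.prod_inv_distrib]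
  have hp1 : ∏ c : V ⧸ f.range, κ (φ ((QuotientGroup.mk g * c : V ⧸ f.range)).out)
      = ∏ c : V ⧸ f.range, κ (φ c.out) :=
    Equiv.prod_comp (Equiv.mulLeft (QuotientGroup.mk g : V ⧸ f.range))
      (fun c : V ⧸ f.range => κ (φ c.out))
  have hp2 : ∏ c : V ⧸ f.range, ((QuotientGroup.mk g * c : V ⧸ f.range)).out
      = ∏ c : V ⧸ f.range, c.out :=
    Equiv.prod_comp (Equiv.mulLeft (QuotientGroup.mk g : V ⧸ f.range))
      (fun c : V ⧸ f.range => c.out)
  rw [hp1, mul_inv_cancel, mul_one, ← map_prod]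
  have hprod : ∏ c : V ⧸ f.range, mm c = 1 := by
    apply hf
    rw [map_prod, map_one]
    have e1 : ∀ c : V ⧸ f.range, f (mm c)
        = g * (c.out * ((QuotientGroup.mk g * c : V ⧸ f.range).out)⁻¹) := by
      intro c
      rw [← mul_assoc, eq_mul_inv_iff_mul_eq]
      conv_rhs => rw [hmm c, hc']
    rw [Finset.prod_congr rfl (fun c _ => e1 c), Finset.prod_mul_distrib,
      Finset.prod_mul_distrib, Finset.prod_inv_distrib, hp2, mul_inv_cancel, mul_one,
      Finset.prod_const,
      Finset.card_univ, ← Nat.card_eq_fintype_card]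
    have hcard : Nat.card (V ⧸ f.range) = Nat.card V / Nat.card Q := by
      have e2 := Subgroup.card_eq_card_quotient_mul_card_subgroup f.range
      have e3 : Nat.card f.range = Nat.card Q := Nat.card_congr (MonoidHom.ofInjective hf).symm.toEquiv
      rw [e2, e3, Nat.mul_div_cancel _ Nat.card_pos]
    rw [hcard, h4]
  rw [hprod, map_one]

end Pool.Agent.Lib.P0c8ca5.Ab
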