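import Mathlib
import Pool.Agent.Lib.P0c8ca5Bx.Defs

/-!
# Cls: sums of class functions

PROOF. Sum over the conjugacy classes: `∑ w, f w = ∑ K, |K| * f (w_K)`, `|K| * |C(w_K)| = |G|`, so the p-part of `|G|` divides `|K| * (p-part of |C(w_K)|)` (the p-parts multiply), and `p * (p-part of |C(w_K)|) ∣ f (w_K)`. Or: let a Sylow p-subgroup `P` (order the p-part of `|G|`) act on `G` by conjugation; the orbit of `w` has
`|P : C_P(w)|` elements, `|C_P(w)|` divides the p-part of `|C(w)|`, so `|orbit| * f w` is divisible by `p * |P|`. (`MulAction.sum_card..`, `Finset.sum_fiberwise`, `sub_dvd_p` in P0c8ca5V.DA/DB/DC is a model.)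
-/

namespace Pool.Agent.Lib.P0c8ca5.Ab

namespace ClsAux

open Classical in
theorem card_mul {G : Type*} [Group G] [Fintype G] (g : G) :
    (Finset.univ.filter fun w : G => ConjClasses.mk w = ConjClasses.mk g).card *
      Nat.card (Subgroup.centralizer ({g} : Set G)) = Nat.card G := by
  have h1 := ConjClasses.card_carrier g
  have h2 : Fintype.card (ConjClasses.mk g).carrier =
      (Finset.univ.filter fun w : G => ConjClasses.mk w = ConjClasses.mk g).card := by
    rw [Fintype.card_subtype]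
    congr 1
    ext w
    simp only [Finset.mem_filter, Finset.mem_univ, true_and]
    exact ConjClasses.mem_carrier_iff_mk_eq
  have h3 := Subgroup.nat_card_centralizer_nat_card_stabilizer g
  have h4 : Fintype.card (MulAction.stabilizer (ConjAct G) g) ∣ Fintype.card G := by
    rw [← Nat.card_eq_fintype_card, ← h3, ← Nat.card_eq_fintype_card]
    exact Subgroup.card_subgroup_dvd_card _
  rw [← h2, h1, h3, Nat.card_eq_fintype_card, Nat.card_eq_fintype_card]
  exact Nat.div_mul_cancel h4

end ClsAux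

open ClsAux

theorem cls_sum {G : Type*} [Group G] [Finite G] {p : ℕ} [Fact p.Prime] {f : G → ℤ}
    (hf : Bx.CF f)
    (h : ∀ w : G, (p : ℤ) * (ordProj[p] (Nat.card (Subgroup.centralizer ({w} : Set G))) : ℕ) ∣ f w) :
    (p : ℤ) * (ordProj[p] (Nat.card G) : ℕ) ∣ ∑ᶠ w : G, f w := by
  classical
  have := Fintype.ofFinite G
  rw [finsum_eq_sum_of_fintype,
    ← Finset.sum_fiberwise Finset.univ (fun w : G => ConjClasses.mk w) f]
  refine Finset.dvd_sum fun K _ => ?_
  obtain ⟨g, rfl⟩ := ConjClasses.exists_rep K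
  have h1 : ∀ w ∈ Finset.univ.filter (fun w : G => ConjClasses.mk w = ConjClasses.mk g),
      f w = f g := by
    intro w hw
    rw [Finset.mem_filter, ConjClasses.mk_eq_mk_iff_isConj] at hw
    obtain ⟨c, hc⟩ := isConj_iff.1 hw.2
    rw [← hc, hf]
  rw [Finset.sum_congr rfl h1, Finset.sum_const, nsmul_eq_mul]
  have h2 := card_mul g
  set a := (Finset.univ.filter fun w : G => ConjClasses.mk w = ConjClasses.mk g).card with ha
  set c := Nat.card (Subgroup.centralizer ({g} : Set G)) with hc
  have hG : Nat.card G ≠ 0 := Nat.card_pos.ne'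
  have ha0 : a ≠ 0 := fun h0 => hG (by rw [← h2, h0, zero_mul])
  have hc0 : c ≠ 0 := fun h0 => hG (by rw [← h2, h0, mul_zero])
  have h3 : ordProj[p] (Nat.card G) = ordProj[p] a * ordProj[p] c := by
    rw [← h2]
    exact Nat.ordProj_mul p ha0 hc0
  have h4 : ((ordProj[p] a : ℕ) : ℤ) ∣ (a : ℤ) := by exact_mod_cast Nat.ordProj_dvd a p
  rw [h3]
  obtain ⟨u, hu⟩ := h4
  obtain ⟨v, hv⟩ := h g
  refine ⟨u * v, ?_⟩
  rw [hv]
  push_cast at hu ⊢
  rw [hu]
  ring

end Pool.Agent.Lib.P0c8ca5.Ab
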