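import Mathlib
import Pool.Agent.Lib.P0c8ca5Ab.FilA

/-!
# FilB: the pairs `(a, v b)` and the conjugates

PROOF. `cmt_vb`: `[a, v b] = a v (b a⁻¹ b⁻¹) v⁻¹ = a b a⁻¹ b⁻¹`, as `v` commutes with `b a b⁻¹`. `cq_vb`: `(v b) a (v b)⁻¹ = v (b a b⁻¹) v⁻¹ = b a b⁻¹`. `RS_vb`: by induction on `n`: for `y ∈ S` commuting with `a`: `[y, v b] = v [y, b] v⁻¹` (`y` commutes with `v`, `Vg_comm_S`); if `[y, b] = z cq ^ j` with
`z ∈ RS n`, this is `z cq ^ j` again (`Vg_comm`), and conversely `[y, b] = v⁻¹ [y, v b] v`. `Qg_vb`, `Vg_vb` follow (the definitions). For `s ∈ S` and `a' = s a s⁻¹`, `b' = s b s⁻¹`: `cq k a' b' = s (cq k a b) s⁻¹`, `y ∈ S` commutes with `a'` iff with `a` (`S` abelian), `[y, b'] = s [y, b] s⁻¹`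
(`y = s y s⁻¹`), `z = s z s⁻¹` for `z ∈ RS n`; so `RS_cj` by induction. `Pw_vb`: `cm` is `cmt_vb`. `ge`: let `K n = closure ({a, b} ∪ RS n)`. The elements of `RS (n+1)` normalize `K n`: `y a y⁻¹ = a`, `y b y⁻¹ = [y, b] b`, `[y, b] = z cq ^ j ∈ K n`, `y z y⁻¹ = z` for `z ∈ RS n`. So every element of
`K (n+1)` is a product `h y` with `h ∈ K n`, `y ∈ RS (n+1)` (`Subgroup.closure_induction`, or `K (n+1) = K n ⊔ ..` and `Subgroup.mem_sup_of_normal_right`), and `(h y) ^ (p ^ m) ∈ K n y ^ (p ^ m)`, so a p-regular element of `K (n+1)` is in `K n` (it is a power of its `p ^ m`-th power). Hence a p-regular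
element of `closure ({a, b} ∪ Qg)` is in `closure {a, b}` (`preg_closure`: it is in some `K n`, the sets are increasing). Apply this to `(a, v b)`: `closure ({a, v b} ∪ Qg)` contains `v` (`v = y cq ^ j`, `cq k a b = cq k a (v b)`), so `b`, so all p-regular elements `g` are in it.
-/

namespace Pool.Agent.Lib.P0c8ca5.Ab

namespace FilBAux

section
variable {G : Type*} [Group G] {p k : ℕ} {S : Subgroup G} {w a b : G}

private theorem RS_le_Vg (hy : Hy p k S w) (hc : cmt a b = w) {n : ℕ} {z : G}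
    (hz : z ∈ RS S k a b n) : z ∈ Vg S k a b :=
  Qg_le_Vg ((mem_Qg hy hc).2 ⟨n, hz⟩)

private theorem zc_comm (hy : Hy p k S w) (hc : cmt a b = w) {v : G} (h : v ∈ Vg S k a b) {n : ℕ}
    {z : G} (hz : z ∈ RS S k a b n) (j : ℤ) :
    v * (z * cq k a b ^ j) = (z * cq k a b ^ j) * v :=
  Vg_comm hy hc h ((Vg S k a b).mul_mem (RS_le_Vg hy hc hz)
    ((Vg S k a b).zpow_mem cq_mem_Vg j))

/-- the group generated by `a`, `b` and `RS n` -/
private def KK (S : Subgroup G) (k : ℕ) (a b : G) (n : ℕ) : Subgroup G :=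
  Subgroup.closure ({a, b} ∪ RS S k a b n)

private theorem a_mem (n : ℕ) : a ∈ KK S k a b n :=
  Subgroup.subset_closure (Or.inl (Or.inl rfl))

private theorem b_mem (n : ℕ) : b ∈ KK S k a b n :=
  Subgroup.subset_closure (Or.inl (Or.inr rfl))

private theorem r_mem {n : ℕ} {y : G} (h : y ∈ RS S k a b n) : y ∈ KK S k a b n :=
  Subgroup.subset_closure (Or.inr h)

private theorem cq_memK (n : ℕ) : cq k a b ∈ KK S k a b n := by
  unfold cq
  exact (KK S k a b n).pow_mem ((KK S k a b n).mul_mem ((KK S k a b n).mul_mem (b_mem n) (a_mem n))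
    ((KK S k a b n).inv_mem (b_mem n))) k

private theorem KK_mono {m n : ℕ} (h : m ≤ n) : KK S k a b m ≤ KK S k a b n :=
  Subgroup.closure_mono (Set.union_subset_union_right _ (RS_mono h))

private theorem conj_mem (hy : Hy p k S w) {n : ℕ} {y : G}
    (h : y ∈ RS S k a b (n + 1)) {g : G} (hg : g ∈ KK S k a b n) :
    y * g * y⁻¹ ∈ KK S k a b n := by
  obtain ⟨hyS, hya, z, hz, j, hj⟩ := h
  have key : (KK S k a b n).map (MulAut.conj y).toMonoidHom ≤ KK S k a b n := by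
    conv_lhs => unfold KK
    rw [MonoidHom.map_closure, Subgroup.closure_le]
    rintro _ ⟨x, hx, rfl⟩
    change y * x * y⁻¹ ∈ KK S k a b n
    rcases hx with hx | hx
    · rcases hx with hx | hx
      · subst hx
        have : y * x * y⁻¹ = x := by rw [hya]; group
        rw [this]
        exact a_mem n
      · have hx' : x = b := hx
        subst hx'
        have : y * x * y⁻¹ = (y * x * y⁻¹ * x⁻¹) * x := by group
        rw [this, hj]
        exact (KK S k a x n).mul_mem ((KK S k a x n).mul_mem (r_mem hz)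
          ((KK S k a x n).zpow_mem (cq_memK n) j)) (b_mem n)
    · have : y * x * y⁻¹ = x := by
        rw [hy.ab y hyS x (RS_sub hx).1]; group
      rw [this]
      exact r_mem hx
  exact key ⟨g, hg, rfl⟩

private theorem KK_succ (hy : Hy p k S w) (hc : cmt a b = w) {n : ℕ} {g : G}
    (hg : g ∈ KK S k a b (n + 1)) : ∃ h ∈ KK S k a b n, ∃ y ∈ RS S k a b (n + 1), g = h * y := by
  unfold KK at hg
  induction hg using Subgroup.closure_induction with
  | mem x hx =>
    rcases hx with hx | hx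
    · refine ⟨x, ?_, 1, one_mem_RS _, (mul_one x).symm⟩
      exact Subgroup.subset_closure (Or.inl hx)
    · exact ⟨1, (KK S k a b n).one_mem, x, hx, (one_mul x).symm⟩
  | one => exact ⟨1, (KK S k a b n).one_mem, 1, one_mem_RS _, (mul_one 1).symm⟩
  | mul x y _ _ hx hy' =>
    obtain ⟨h, hh, r, hr, rfl⟩ := hx
    obtain ⟨h', hh', r', hr', rfl⟩ := hy'
    refine ⟨h * (r * h' * r⁻¹), (KK S k a b n).mul_mem hh (conj_mem hy hr hh'), r * r',
      RS_mul hy hc hr hr', ?_⟩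
    group
  | inv x _ hx =>
    obtain ⟨h, hh, r, hr, rfl⟩ := hx
    refine ⟨r⁻¹ * h⁻¹ * r⁻¹⁻¹, conj_mem hy (RS_inv hy hc hr) ((KK S k a b n).inv_mem hh), r⁻¹,
      RS_inv hy hc hr, ?_⟩
    group

private theorem RS_pow (hy : Hy p k S w) (hc : cmt a b = w) {n : ℕ} {y : G}
    (h : y ∈ RS S k a b n) (N : ℕ) : y ^ N ∈ RS S k a b n := by
  induction N with
  | zero => rw [pow_zero]; exact one_mem_RS _
  | succ N ih => rw [pow_succ]; exact RS_mul hy hc ih h

private theorem pow_hy (hy : Hy p k S w) (hc : cmt a b = w) {n : ℕ} {h y : G}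
    (hh : h ∈ KK S k a b n) (hr : y ∈ RS S k a b (n + 1)) (N : ℕ) :
    (h * y) ^ N * (y ^ N)⁻¹ ∈ KK S k a b n := by
  induction N with
  | zero => rw [pow_zero, pow_zero, inv_one, mul_one]; exact (KK S k a b n).one_mem
  | succ N ih =>
    have e : (h * y) ^ (N + 1) * (y ^ (N + 1))⁻¹
        = ((h * y) ^ N * (y ^ N)⁻¹) * (y ^ N * h * (y ^ N)⁻¹) := by
      rw [pow_succ, pow_succ]
      group
    rw [e]
    exact (KK S k a b n).mul_mem ih (conj_mem hy (RS_pow hy hc hr N) hh)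

private theorem preg_step [Finite G] [Fact p.Prime] (hy : Hy p k S w) (hc : cmt a b = w) {n : ℕ}
    {g : G} (hg : Preg p g) (h : g ∈ KK S k a b (n + 1)) : g ∈ KK S k a b n := by
  have hp : p.Prime := Fact.out
  obtain ⟨x, hx, y, hr, rfl⟩ := KK_succ hy hc h
  obtain ⟨m, hm⟩ := hy.pS ⟨y, (RS_sub hr).1⟩
  have hm' : y ^ p ^ m = 1 := by
    have := congrArg Subtype.val hm
    simpa using this
  have h1 := pow_hy hy hc hx hr (p ^ m)
  rw [hm', inv_one, mul_one] at h1
  have hco : Nat.Coprime (p ^ m) (orderOf (x * y)) :=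
    ((Nat.Prime.coprime_iff_not_dvd hp).2 hg).pow_left m
  obtain ⟨t, ht⟩ := exists_pow_eq_self_of_coprime hco
  rw [← ht]
  exact (KK S k a b n).pow_mem h1 t

private theorem preg_KK [Finite G] [Fact p.Prime] (hy : Hy p k S w) (hc : cmt a b = w) {g : G}
    (hg : Preg p g) (n : ℕ) (h : g ∈ KK S k a b n) :
    g ∈ Subgroup.closure ({a, b} : Set G) := by
  induction n with
  | zero =>
    have : KK S k a b 0 ≤ Subgroup.closure ({a, b} : Set G) := by
      unfold KK
      rw [Subgroup.closure_le]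
      rintro x (hx | hx)
      · exact Subgroup.subset_closure hx
      · have hx' : x = 1 := hx
        rw [hx']
        exact Subgroup.one_mem _
    exact this h
  | succ n ih => exact ih (preg_step hy hc hg h)

end

end FilBAux

open FilBAux

section
variable {G : Type*} [Group G] {p k : ℕ} {S : Subgroup G} {w a b : G}

theorem cmt_vb (hy : Hy p k S w) (hc : cmt a b = w) {v : G} (h : v ∈ Vg S k a b) :
    cmt a (v * b) = w := by
  have h1 := Vg_comm_b hy hc h
  rw [← hc]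
  unfold cmt
  have h2 : v * (b * a * b⁻¹)⁻¹ = (b * a * b⁻¹)⁻¹ * v := by
    rw [mul_inv_eq_iff_eq_mul, mul_assoc, h1, ← mul_assoc, inv_mul_cancel, one_mul]
  calc a * (v * b) * a⁻¹ * (v * b)⁻¹ = a * (v * (b * a * b⁻¹)⁻¹) * v⁻¹ := by group
    _ = a * ((b * a * b⁻¹)⁻¹ * v) * v⁻¹ := by rw [h2]
    _ = a * b * a⁻¹ * b⁻¹ := by group

theorem cq_vb (hy : Hy p k S w) (hc : cmt a b = w) {v : G} (h : v ∈ Vg S k a b) :
    cq k a (v * b) = cq k a b := by
  have h1 := Vg_comm_b hy hc h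
  unfold cq
  have h2 : v * b * a * (v * b)⁻¹ = b * a * b⁻¹ := by
    calc v * b * a * (v * b)⁻¹ = v * (b * a * b⁻¹) * v⁻¹ := by group
      _ = (b * a * b⁻¹) * v * v⁻¹ := by rw [h1]
      _ = b * a * b⁻¹ := by group
  rw [h2]

theorem RS_vb (hy : Hy p k S w) (hc : cmt a b = w) {v : G} (h : v ∈ Vg S k a b) (n : ℕ) :
    RS S k a (v * b) n = RS S k a b n := by
  induction n with
  | zero => rfl
  | succ n ih =>
    ext y
    change (y ∈ S ∧ y * a = a * y ∧ ∃ z ∈ RS S k a (v * b) n, ∃ j : ℤ,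
      y * (v * b) * y⁻¹ * (v * b)⁻¹ = z * cq k a (v * b) ^ j) ↔
      (y ∈ S ∧ y * a = a * y ∧ ∃ z ∈ RS S k a b n, ∃ j : ℤ,
      y * b * y⁻¹ * b⁻¹ = z * cq k a b ^ j)
    rw [ih, cq_vb hy hc h]
    refine and_congr_right fun hyS => and_congr_right fun hya => ?_
    have h1 : y * v = v * y := Vg_comm_S hy hc h hyS hya
    have h2 : y * (v * b) * y⁻¹ * (v * b)⁻¹ = v * (y * b * y⁻¹ * b⁻¹) * v⁻¹ := by
      calc y * (v * b) * y⁻¹ * (v * b)⁻¹ = (y * v) * b * y⁻¹ * b⁻¹ * v⁻¹ := by group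
        _ = (v * y) * b * y⁻¹ * b⁻¹ * v⁻¹ := by rw [h1]
        _ = v * (y * b * y⁻¹ * b⁻¹) * v⁻¹ := by group
    rw [h2]
    refine exists_congr fun z => and_congr_right fun hz => exists_congr fun j => ?_
    have h3 := zc_comm hy hc h hz j
    constructor
    · intro e
      have : y * b * y⁻¹ * b⁻¹ = v⁻¹ * (v * (y * b * y⁻¹ * b⁻¹) * v⁻¹) * v := by group
      rw [this, e, mul_assoc, ← h3, ← mul_assoc, inv_mul_cancel, one_mul]
    · intro e
      rw [e, h3, mul_inv_cancel_right]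

theorem Qg_vb (hy : Hy p k S w) (hc : cmt a b = w) {v : G} (h : v ∈ Vg S k a b) :
    Qg S k a (v * b) = Qg S k a b := by
  unfold Qg
  simp only [RS_vb hy hc h]

theorem Vg_vb (hy : Hy p k S w) (hc : cmt a b = w) {v : G} (h : v ∈ Vg S k a b) :
    Vg S k a (v * b) = Vg S k a b := by
  unfold Vg
  rw [Qg_vb hy hc h, cq_vb hy hc h]

/-- a p-regular element of the group generated by `a`, `b` and `Qg` is in `⟨a, b⟩` -/
theorem preg_closure [Finite G] [Fact p.Prime] (hy : Hy p k S w) (hc : cmt a b = w) {g : G}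
    (hg : Preg p g) (h : g ∈ Subgroup.closure ({a, b} ∪ (Qg S k a b : Set G))) :
    g ∈ Subgroup.closure ({a, b} : Set G) := by
  have key : ∀ x ∈ Subgroup.closure ({a, b} ∪ (Qg S k a b : Set G)), ∃ n, x ∈ KK S k a b n := by
    intro x hx
    induction hx using Subgroup.closure_induction with
    | mem x hx =>
      rcases hx with hx | hx
      · exact ⟨0, Subgroup.subset_closure (Or.inl hx)⟩
      · obtain ⟨n, hn⟩ := (mem_Qg hy hc).1 hx
        exact ⟨n, r_mem hn⟩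
    | one => exact ⟨0, Subgroup.one_mem _⟩
    | mul x y _ _ hx hy' =>
      obtain ⟨m, hm⟩ := hx
      obtain ⟨n, hn⟩ := hy'
      exact ⟨max m n, (KK S k a b _).mul_mem (KK_mono (le_max_left m n) hm)
        (KK_mono (le_max_right m n) hn)⟩
    | inv x _ hx =>
      obtain ⟨m, hm⟩ := hx
      exact ⟨m, (KK S k a b _).inv_mem hm⟩
  obtain ⟨n, hn⟩ := key g h
  exact preg_KK hy hc hg n hn

theorem Pw_vb [Finite G] [Fact p.Prime] (hy : Hy p k S w) (h : Pw p w a b) {v : G}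
    (hv : v ∈ Vg S k a b) : Pw p w a (v * b) := by
  have hc' := cmt_vb hy h.cm hv
  refine ⟨hc', fun g hg => ?_⟩
  refine preg_closure hy hc' hg ?_
  have hle : Subgroup.closure ({a, b} : Set G) ≤
      Subgroup.closure ({a, v * b} ∪ (Qg S k a (v * b) : Set G)) := by
    set U := Subgroup.closure ({a, v * b} ∪ (Qg S k a (v * b) : Set G)) with hU
    have ha : a ∈ U := Subgroup.subset_closure (Or.inl (Or.inl rfl))
    have hvb : v * b ∈ U := Subgroup.subset_closure (Or.inl (Or.inr rfl))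
    have hv' : v ∈ U := by
      obtain ⟨y, hy', j, rfl⟩ := (mem_Vg hy h.cm).1 hv
      refine U.mul_mem ?_ (U.zpow_mem ?_ j)
      · refine Subgroup.subset_closure (Or.inr ?_)
        rw [SetLike.mem_coe, Qg_vb hy h.cm hv]
        exact hy'
      · rw [← cq_vb hy h.cm hv]
        exact U.pow_mem (U.mul_mem (U.mul_mem hvb ha) (U.inv_mem hvb)) k
    rw [Subgroup.closure_le]
    rintro x (hx | hx)
    · rw [hx]; exact ha
    · have hx' : x = b := hx
      rw [hx']
      have : b = v⁻¹ * (v * b) := by group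
      rw [this]
      exact U.mul_mem (U.inv_mem hv') hvb
  exact hle (h.ge g hg)

theorem cq_cj (s : G) : cq k (s * a * s⁻¹) (s * b * s⁻¹) = s * cq k a b * s⁻¹ := by
  unfold cq
  rw [← conj_pow]
  congr 1
  group

theorem RS_cj (hy : Hy p k S w) {s : G} (hs : s ∈ S) (n : ℕ) :
    RS S k (s * a * s⁻¹) (s * b * s⁻¹) n = RS S k a b n := by
  induction n with
  | zero => rfl
  | succ n ih =>
    ext y
    change (y ∈ S ∧ y * (s * a * s⁻¹) = (s * a * s⁻¹) * y ∧
      ∃ z ∈ RS S k (s * a * s⁻¹) (s * b * s⁻¹) n, ∃ j : ℤ,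
      y * (s * b * s⁻¹) * y⁻¹ * (s * b * s⁻¹)⁻¹ = z * cq k (s * a * s⁻¹) (s * b * s⁻¹) ^ j) ↔
      (y ∈ S ∧ y * a = a * y ∧ ∃ z ∈ RS S k a b n, ∃ j : ℤ,
      y * b * y⁻¹ * b⁻¹ = z * cq k a b ^ j)
    rw [ih, cq_cj]
    refine and_congr_right fun hyS => ?_
    have h1 : y * s = s * y := hy.ab y hyS s hs
    have h1' : y⁻¹ * s = s * y⁻¹ := by
      rw [inv_mul_eq_iff_eq_mul, ← mul_assoc, h1, mul_inv_cancel_right]
    have ha : y * (s * a * s⁻¹) = s * (y * a) * s⁻¹ := by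
      calc y * (s * a * s⁻¹) = (y * s) * a * s⁻¹ := by group
        _ = (s * y) * a * s⁻¹ := by rw [h1]
        _ = s * (y * a) * s⁻¹ := by group
    have ha' : (s * a * s⁻¹) * y = s * (a * y) * s⁻¹ := by
      calc (s * a * s⁻¹) * y = s * a * (s⁻¹ * (y * s)) * s⁻¹ := by group
        _ = s * a * (s⁻¹ * (s * y)) * s⁻¹ := by rw [h1]
        _ = s * (a * y) * s⁻¹ := by group
    have hb : y * (s * b * s⁻¹) * y⁻¹ * (s * b * s⁻¹)⁻¹ = s * (y * b * y⁻¹ * b⁻¹) * s⁻¹ := by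
      calc y * (s * b * s⁻¹) * y⁻¹ * (s * b * s⁻¹)⁻¹
          = (y * s) * b * (s⁻¹ * (y⁻¹ * s)) * b⁻¹ * s⁻¹ := by group
        _ = (s * y) * b * (s⁻¹ * (s * y⁻¹)) * b⁻¹ * s⁻¹ := by rw [h1, h1']
        _ = s * (y * b * y⁻¹ * b⁻¹) * s⁻¹ := by group
    rw [ha, ha', hb]
    have inj : ∀ u v : G, s * u * s⁻¹ = s * v * s⁻¹ ↔ u = v := by
      intro u v
      constructor
      · intro e
        exact mul_left_cancel (mul_right_cancel e)
      · intro e; rw [e]
    refine and_congr (inj _ _) ?_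
    refine exists_congr fun z => and_congr_right fun hz => exists_congr fun j => ?_
    have h2 : z * (s * cq k a b * s⁻¹) ^ j = s * (z * cq k a b ^ j) * s⁻¹ := by
      have h3 : z * s = s * z := hy.ab z (RS_sub hz).1 s hs
      rw [conj_zpow]
      calc z * (s * cq k a b ^ j * s⁻¹) = (z * s) * cq k a b ^ j * s⁻¹ := by group
        _ = (s * z) * cq k a b ^ j * s⁻¹ := by rw [h3]
        _ = s * (z * cq k a b ^ j) * s⁻¹ := by group
    rw [h2]
    exact inj _ _

theorem Qg_cj (hy : Hy p k S w) {s : G} (hs : s ∈ S) :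
    Qg S k (s * a * s⁻¹) (s * b * s⁻¹) = Qg S k a b := by
  unfold Qg
  simp only [RS_cj hy hs]

/-- the conjugates of the elements of `Vg` -/
theorem Vg_cj (hy : Hy p k S w) (hc : cmt a b = w) {s v : G} (hs : s ∈ S)
    (h : v ∈ Vg S k (s * a * s⁻¹) (s * b * s⁻¹)) : s⁻¹ * v * s ∈ Vg S k a b := by
  have hc' : cmt (s * a * s⁻¹) (s * b * s⁻¹) = w := by
    have h1 : cmt (s * a * s⁻¹) (s * b * s⁻¹) = s * cmt a b * s⁻¹ := by
      unfold cmt
      group
    rw [h1, hc, hy.cw s hs, mul_inv_cancel_right]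
  obtain ⟨y, hy', j, rfl⟩ := (mem_Vg hy hc').1 h
  rw [Qg_cj hy hs] at hy'
  rw [mem_Vg hy hc]
  refine ⟨y, hy', j, ?_⟩
  have h2 : y * s = s * y := hy.ab y (Qg_sub hy hc hy').1 s hs
  rw [cq_cj, conj_zpow]
  calc s⁻¹ * (y * (s * cq k a b ^ j * s⁻¹)) * s = s⁻¹ * (y * s) * cq k a b ^ j := by group
    _ = s⁻¹ * (s * y) * cq k a b ^ j := by rw [h2]
    _ = y * cq k a b ^ j := by group

end

end Pool.Agent.Lib.P0c8ca5.Ab
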