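import Mathlib
import Pool.Agent.Lib.P0c8ca5Ab.FilB

/-!
# Dis: `Qg` meets the group generated by `cq` trivially

PROOF. `RS_dis`: by induction on `n`; `n = 0` is clear. Let the statement hold for `n` and let `y = cq ^ j ∈ RS (n+1)`, `y ≠ 1`. `cq` is a p-element (`hy.pk`), so a power `y₀` of `y` has order `p` and lies in `RS (n+1)` (`RS_mul`, powers), and every power `x` of `cq` with `x ^ p = 1` is a power of `y₀`
(cyclic group: a finite cyclic group has only one subgroup of order `p`), so in `RS (n+1)`. Let `W` be the set of the `v = z * cq ^ i` with `z ∈ RS n` and `v ^ p = 1`: a subgroup (everything commutes, `Vg_comm`). If `v = z * cq ^ i ∈ W`, then `z ^ p = (cq ^ i) ^ (-p) ∈ RS n` is 1 by the induction hypothesis, so `(cq ^ i) ^ p = 1`,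
`cq ^ i ∈ RS (n+1)`, `v ∈ RS (n+1)`. So `v b v⁻¹ b⁻¹ = z' * cq ^ i'` with `z' ∈ RS n`, and `b v b⁻¹ = (v b v⁻¹ b⁻¹)⁻¹ v` is again of this form and has `p`-th power 1: `b W b⁻¹ ⊆ W`. `W` commutes with `a` (`RS_sub`). So the closure of `{a, b}` normalizes `W` (finite), `Opr p ⊤ ≤ closure {a, b}`
by `h.ge`, `W` is a p-group, so `W = ⊥` by `norm_trivial`; but `y₀ ∈ W`. `Qg_fix`: `y` centralizes the closure of `{a, b}`; `zpowers y` is normalized by it, a p-group; `norm_trivial`. `card_Vg`: `(y, x) ↦ y * x` is a bijection from `Qg × zpowers cq` to `Vg` (`mem_Vg`, `Qg_dis`). `cq_pow`: `cq ^ (|V| / |Q|) = cq ^ (orderOf cq)`.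
-/

namespace Pool.Agent.Lib.P0c8ca5.Ab

namespace DisAux

/-- a cyclic group has at most one subgroup of order `p` -/
theorem uniq {G : Type*} [Group G] [Finite G] {p : ℕ} [hp : Fact p.Prime] {c x y : G}
    (hx : x ∈ Subgroup.zpowers c) (hy : y ∈ Subgroup.zpowers c) (hxp : x ^ p = 1)
    (hyp : y ^ p = 1) (hy1 : y ≠ 1) : x ∈ Subgroup.zpowers y := by
  classical
  have : Fintype ↥(Subgroup.zpowers c) := Fintype.ofFinite _
  have h0 : orderOf (⟨y, hy⟩ : ↥(Subgroup.zpowers c)) = p := by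
    refine orderOf_eq_prime ?_ ?_
    · exact Subtype.ext hyp
    · exact fun h => hy1 (congrArg Subtype.val h)
  have h1 := IsCyclic.card_pow_eq_one_le (α := ↥(Subgroup.zpowers c)) hp.out.pos
  have h2 : (Subgroup.zpowers (⟨y, hy⟩ : ↥(Subgroup.zpowers c)) :
      Set ↥(Subgroup.zpowers c)).toFinset ⊆ Finset.univ.filter (fun a => a ^ p = 1) := by
    intro a ha
    rw [Set.mem_toFinset] at ha
    obtain ⟨i, hi⟩ := Subgroup.mem_zpowers_iff.1 ha
    rw [Finset.mem_filter]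
    refine ⟨Finset.mem_univ _, ?_⟩
    rw [← hi, ← zpow_natCast, ← zpow_mul, mul_comm, zpow_mul, zpow_natCast]
    have h3 : (⟨y, hy⟩ : ↥(Subgroup.zpowers c)) ^ p = 1 := Subtype.ext hyp
    rw [h3, one_zpow]
  have h4 : (Subgroup.zpowers (⟨y, hy⟩ : ↥(Subgroup.zpowers c)) :
      Set ↥(Subgroup.zpowers c)).toFinset.card = p := by
    rw [Set.toFinset_card]
    have h5 := Fintype.card_zpowers (x := (⟨y, hy⟩ : ↥(Subgroup.zpowers c)))
    rw [h0] at h5
    exact h5
  have h6 := Finset.eq_of_subset_of_card_le h2 (by rw [h4]; exact h1)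
  have h7 : (⟨x, hx⟩ : ↥(Subgroup.zpowers c)) ∈
      Finset.univ.filter (fun a : ↥(Subgroup.zpowers c) => a ^ p = 1) := by
    rw [Finset.mem_filter]
    exact ⟨Finset.mem_univ _, Subtype.ext hxp⟩
  rw [← h6, Set.mem_toFinset] at h7
  obtain ⟨i, hi⟩ := Subgroup.mem_zpowers_iff.1 h7
  exact Subgroup.mem_zpowers_iff.2 ⟨i, congrArg Subtype.val hi⟩

/-- a nontrivial p-element has a power of order `p` -/
theorem exists_pow {G : Type*} [Group G] {p : ℕ} {y : G} (h : Pel p y) (hy : y ≠ 1) :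
    ∃ n : ℕ, y ^ n ≠ 1 ∧ (y ^ n) ^ p = 1 := by
  classical
  have h' : ∃ n : ℕ, y ^ p ^ n = 1 := h
  cases hN : Nat.find h' with
  | zero =>
    have h1 := Nat.find_spec h'
    rw [hN, pow_zero, pow_one] at h1
    exact absurd h1 hy
  | succ N =>
    refine ⟨p ^ N, ?_, ?_⟩
    · exact Nat.find_min h' (by omega)
    · have h1 := Nat.find_spec h'
      rw [hN] at h1
      rw [← pow_mul, ← pow_succ]
      exact h1

end DisAux

section
variable {G : Type*} [Group G] {p k : ℕ} {S : Subgroup G} {w a b : G}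

namespace DisAux

theorem triv [Finite G] [Fact p.Prime] (hy : Hy p k S w) (h : Pw p w a b) {W : Subgroup G}
    (hW : IsPGroup p W) (ha : ∀ v ∈ W, a * v * a⁻¹ ∈ W) (hb : ∀ v ∈ W, b * v * b⁻¹ ∈ W) :
    W = ⊥ := by
  refine norm_trivial hy.no le_top hW ?_
  have h1 : Opr p (⊤ : Subgroup G) ≤ Subgroup.closure ({a, b} : Set G) := by
    unfold Opr
    rw [Subgroup.closure_le]
    exact fun x hx => h.ge x hx.2
  refine h1.trans ?_
  rw [Subgroup.closure_le]
  rintro x (rfl | hx)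
  · exact Subgroup.mem_normalizer_fintype ha
  · rw [Set.mem_singleton_iff] at hx
    subst hx
    exact Subgroup.mem_normalizer_fintype hb

theorem zpow_RS (hy : Hy p k S w) (hc : cmt a b = w) {n : ℕ} {x y : G} (hx : x ∈ RS S k a b n)
    (hxy : y ∈ Subgroup.zpowers x) : y ∈ RS S k a b n := by
  let K : Subgroup G :=
    { carrier := RS S k a b n
      mul_mem' := fun h1 h2 => RS_mul hy hc h1 h2
      one_mem' := one_mem_RS n
      inv_mem' := fun h1 => RS_inv hy hc h1 }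
  have h1 : Subgroup.zpowers x ≤ K := by
    rw [Subgroup.zpowers_le]
    exact hx
  exact h1 hxy

end DisAux

/-- an element of `S` commuting with `a` and `b` is trivial -/
theorem fix_one [Finite G] [Fact p.Prime] (hy : Hy p k S w) (h : Pw p w a b) {y : G} (hyS : y ∈ S)
    (hya : y * a = a * y) (hyb : y * b = b * y) : y = 1 := by
  have h1 : ∀ c : G, y * c = c * y → ∀ v ∈ Subgroup.zpowers y, c * v * c⁻¹ ∈ Subgroup.zpowers y := by
    intro c hc v hv
    obtain ⟨i, rfl⟩ := Subgroup.mem_zpowers_iff.1 hv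
    have h2 : Commute c (y ^ i) := (show Commute c y from hc.symm).zpow_right i
    rw [h2.eq, mul_assoc, mul_inv_cancel, mul_one]
    exact hv
  have h3 := DisAux.triv hy h (W := Subgroup.zpowers y)
    (hy.pS.to_le (by rw [Subgroup.zpowers_le]; exact hyS)) (h1 a hya) (h1 b hyb)
  exact Subgroup.zpowers_eq_bot.1 h3

theorem RS_dis [Finite G] [Fact p.Prime] (hy : Hy p k S w) (h : Pw p w a b) (n : ℕ) {j : ℤ}
    (hj : cq k a b ^ j ∈ RS S k a b n) : cq k a b ^ j = 1 := by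
  have hc := h.cm
  induction n generalizing j with
  | zero => exact hj
  | succ n ih =>
    by_contra hne
    -- everything commutes
    have hQ : ∀ {z : G} {m : ℕ}, z ∈ RS S k a b m → z ∈ Vg S k a b := fun hz =>
      Qg_le_Vg ((mem_Qg hy hc).2 ⟨_, hz⟩)
    have hC : ∀ i : ℤ, cq k a b ^ i ∈ Vg S k a b := fun i => (Vg S k a b).zpow_mem cq_mem_Vg i
    -- an element of order `p`
    have hpel : Pel p (cq k a b ^ j) := by
      obtain ⟨N, hN⟩ := hy.pk (b * a * b⁻¹)
      refine ⟨N, ?_⟩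
      rw [← zpow_natCast, ← zpow_mul, mul_comm, zpow_mul, zpow_natCast]
      have : cq k a b ^ p ^ N = 1 := hN
      rw [this, one_zpow]
    obtain ⟨m, hm1, hm2⟩ := DisAux.exists_pow hpel hne
    have hm3 : (cq k a b ^ j) ^ m ∈ RS S k a b (n + 1) :=
      DisAux.zpow_RS hy hc hj (Subgroup.npow_mem_zpowers _ m)
    have hm4 : (cq k a b ^ j) ^ m ∈ Subgroup.zpowers (cq k a b) :=
      Subgroup.pow_mem _ (Subgroup.zpow_mem_zpowers _ _) m
    have huni : ∀ i : ℤ, (cq k a b ^ i) ^ p = 1 → cq k a b ^ i ∈ RS S k a b (n + 1) := by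
      intro i hi
      exact DisAux.zpow_RS hy hc hm3
        (DisAux.uniq (Subgroup.zpow_mem_zpowers _ _) hm4 hi hm2 hm1)
    -- the group `W`
    let W : Subgroup G :=
      { carrier := {v | (∃ z ∈ RS S k a b n, ∃ i : ℤ, v = z * cq k a b ^ i) ∧ v ^ p = 1}
        mul_mem' := by
          rintro u v ⟨⟨z, hz, i, rfl⟩, h1⟩ ⟨⟨z', hz', i', rfl⟩, h2⟩
          refine ⟨⟨z * z', RS_mul hy hc hz hz', i + i', ?_⟩, ?_⟩
          · have h3 := Vg_comm hy hc (hC i) (hQ hz')
            calc z * cq k a b ^ i * (z' * cq k a b ^ i')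
                = z * (cq k a b ^ i * z') * cq k a b ^ i' := by group
              _ = z * (z' * cq k a b ^ i) * cq k a b ^ i' := by rw [h3]
              _ = z * z' * cq k a b ^ (i + i') := by rw [zpow_add]; group
          · have h3 : Commute (z * cq k a b ^ i) (z' * cq k a b ^ i') :=
              Vg_comm hy hc ((Vg S k a b).mul_mem (hQ hz) (hC i))
                ((Vg S k a b).mul_mem (hQ hz') (hC i'))
            rw [h3.mul_pow, h1, h2, one_mul]
        one_mem' := ⟨⟨1, one_mem_RS n, 0, by simp⟩, one_pow p⟩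
        inv_mem' := by
          rintro u ⟨⟨z, hz, i, rfl⟩, h1⟩
          refine ⟨⟨z⁻¹, RS_inv hy hc hz, -i, ?_⟩, ?_⟩
          · have h3 := Vg_comm hy hc (hC (-i)) ((Vg S k a b).inv_mem (hQ hz))
            rw [mul_inv_rev, ← zpow_neg, h3]
          · rw [inv_pow, h1, inv_one] }
    have hWm : ∀ v : G, v ∈ W ↔ (∃ z ∈ RS S k a b n, ∃ i : ℤ, v = z * cq k a b ^ i) ∧ v ^ p = 1 :=
      fun v => Iff.rfl
    have hWR : ∀ v ∈ W, v ∈ RS S k a b (n + 1) := by
      intro v hv
      obtain ⟨⟨z, hz, i, rfl⟩, h1⟩ := (hWm v).1 hv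
      refine RS_mul hy hc (RS_mono (Nat.le_succ n) hz) (huni i ?_)
      have h3 : Commute z (cq k a b ^ i) := Vg_comm hy hc (hQ hz) (hC i)
      rw [h3.mul_pow] at h1
      have h4 : (cq k a b ^ i) ^ p = (z ^ p)⁻¹ := eq_inv_of_mul_eq_one_right h1
      have h5 : (cq k a b ^ i) ^ p = cq k a b ^ (i * p) := by
        rw [zpow_mul, zpow_natCast]
      rw [h5]
      apply ih
      rw [← h5, h4]
      exact RS_inv hy hc (DisAux.zpow_RS hy hc hz (Subgroup.npow_mem_zpowers _ p))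
    have hW : W = ⊥ := by
      refine DisAux.triv hy h ?_ ?_ ?_
      · intro v
        refine ⟨1, ?_⟩
        rw [pow_one]
        exact Subtype.ext ((hWm _).1 v.2).2
      · intro v hv
        have h1 := (RS_sub (hWR v hv)).2
        rw [← h1, mul_assoc, mul_inv_cancel, mul_one]
        exact hv
      · intro v hv
        obtain ⟨-, -, z', hz', i', h1⟩ := hWR v hv
        obtain ⟨⟨z, hz, i, hvz⟩, h2⟩ := (hWm v).1 hv
        refine (hWm _).2 ⟨⟨z'⁻¹ * z, RS_mul hy hc (RS_inv hy hc hz') hz, i - i', ?_⟩, ?_⟩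
        · have h3 : b * v * b⁻¹ = (v * b * v⁻¹ * b⁻¹)⁻¹ * v := by group
          have h4 := Vg_comm hy hc (hC (-i')) ((Vg S k a b).mul_mem
            ((Vg S k a b).inv_mem (hQ hz')) (hQ hz))
          calc b * v * b⁻¹ = (v * b * v⁻¹ * b⁻¹)⁻¹ * v := h3
            _ = cq k a b ^ (-i') * (z'⁻¹ * z) * cq k a b ^ i := by
                rw [h1, hvz, mul_inv_rev, ← zpow_neg]; group
            _ = z'⁻¹ * z * cq k a b ^ (-i') * cq k a b ^ i := by rw [h4]
            _ = z'⁻¹ * z * cq k a b ^ (i - i') := by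
                rw [mul_assoc, ← zpow_add]
                congr 2
                ring
        · rw [conj_pow, h2, mul_one, mul_inv_cancel]
    have h8 : (cq k a b ^ j) ^ m ∈ W := by
      refine (hWm _).2 ⟨⟨1, one_mem_RS n, j * m, ?_⟩, hm2⟩
      rw [one_mul, zpow_mul, zpow_natCast]
    rw [hW, Subgroup.mem_bot] at h8
    exact hm1 h8

theorem Qg_dis [Finite G] [Fact p.Prime] (hy : Hy p k S w) (h : Pw p w a b) {j : ℤ}
    (hj : cq k a b ^ j ∈ Qg S k a b) : cq k a b ^ j = 1 := by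
  obtain ⟨n, hn⟩ := (mem_Qg hy h.cm).1 hj
  exact RS_dis hy h n hn

theorem card_Vg [Finite G] [Fact p.Prime] (hy : Hy p k S w) (h : Pw p w a b) :
    Nat.card (Vg S k a b) = Nat.card (Qg S k a b) * orderOf (cq k a b) := by
  have hc := h.cm
  have hQz : ∀ x ∈ Subgroup.zpowers (cq k a b), x ∈ Vg S k a b := by
    intro x hx
    exact (Subgroup.zpowers_le.2 (cq_mem_Vg : cq k a b ∈ Vg S k a b)) hx
  let F : ↥(Qg S k a b) × ↥(Subgroup.zpowers (cq k a b)) → ↥(Vg S k a b) := fun q =>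
    ⟨q.1.1 * q.2.1, (Vg S k a b).mul_mem (Qg_le_Vg q.1.2) (hQz _ q.2.2)⟩
  have hF : Function.Bijective F := by
    constructor
    · rintro ⟨⟨y, hy1⟩, ⟨x, hx⟩⟩ ⟨⟨y', hy1'⟩, ⟨x', hx'⟩⟩ he
      have h1 : y * x = y' * x' := congrArg Subtype.val he
      have h2 : y'⁻¹ * y = x' * x⁻¹ := by
        have h3 : y'⁻¹ * (y * x) * x⁻¹ = y'⁻¹ * (y' * x') * x⁻¹ := by rw [h1]
        have h4 : y'⁻¹ * (y * x) * x⁻¹ = y'⁻¹ * y := by group
        have h5 : y'⁻¹ * (y' * x') * x⁻¹ = x' * x⁻¹ := by group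
        rw [h4, h5] at h3
        exact h3
      have h6 : x' * x⁻¹ ∈ Subgroup.zpowers (cq k a b) := Subgroup.mul_mem _ hx' (Subgroup.inv_mem _ hx)
      obtain ⟨j, hj⟩ := Subgroup.mem_zpowers_iff.1 h6
      have h7 : cq k a b ^ j ∈ Qg S k a b := by
        rw [hj, ← h2]
        exact Subgroup.mul_mem _ (Subgroup.inv_mem _ hy1') hy1
      have h8 := Qg_dis hy h h7
      rw [hj] at h8
      have h9 : x' = x := mul_inv_eq_one.1 h8
      rw [h8] at h2
      have h10 : y' = y := inv_mul_eq_one.1 h2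
      subst h9; subst h10
      rfl
    · rintro ⟨v, hv⟩
      obtain ⟨y, hy1, j, rfl⟩ := (mem_Vg hy hc).1 hv
      exact ⟨⟨⟨y, hy1⟩, ⟨cq k a b ^ j, Subgroup.zpow_mem_zpowers _ _⟩⟩, rfl⟩
  rw [← Nat.card_congr (Equiv.ofBijective F hF), Nat.card_prod, Nat.card_zpowers]

theorem cq_pow [Finite G] [Fact p.Prime] (hy : Hy p k S w) (h : Pw p w a b) :
    cq k a b ^ (Nat.card (Vg S k a b) / Nat.card (Qg S k a b)) = 1 := by
  rw [card_Vg hy h, Nat.mul_div_cancel_left _ Nat.card_pos, pow_orderOf_eq_one]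

end

end Pool.Agent.Lib.P0c8ca5.Ab
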