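import Mathlib
import Pool.Agent.Lib.P0c8ca5Rc.Bi
import Pool.Agent.Lib.P0c8ca5Bx.Cop
import Pool.Agent.Lib.P0c8ca5Ab.Defs

/-!
# Fam: the weights and the blocks with abelian local p-subgroups

PROOF. `WFam_ab`: `wt` clear; `sub`: a p-subgroup `P` of `↥U` commuting with `d`: its image in `G` commutes with `(d : G)`. `mb`: if `mb Q m y ≠ 0`, there is `c ∈ N(Q)` over `y` with `m c ≠ 0` (definition of `mb`; `c` is p-regular). Let `P` be a p-subgroup of `N(Q)/Q` commuting with `y` and `E` the group of all `g ∈ N(Q)` with `gQ ∈ P` that commute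
with `c`: a p-group (as in `sup_of_noRat`, P0c8ca5V.Sup: `pre Q P ⊓ centralizer {c}`, `isPGroup_pre`), so commutative by `AbC p c`; by `Bx.cent_lift` every element of `P` is the image of an element of `E`. So `P` is commutative. `gap_of_fam`: as `gap_of_RI` (P0c8ca5Rc.Bi), with `∀ d, lev b c d ≠ 0 → AbC p d` for `c ≠ 0` instead of `RI`
(`lev b c d ≠ 0` means `b.coeff d = c ≠ 0`).
-/

namespace Pool.Agent.Lib.P0c8ca5.Ab

open MonoidAlgebra

universe u v

namespace FamAux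

variable {p : ℕ} {A : Type*} [Group A]

theorem abC_sub {U : Subgroup A} {d : ↥U} (h : AbC p (d : A)) : AbC p d := by
  intro P hP hd x hx y hy
  have h1 := h (P.map U.subtype) (hP.map _) (by
    rintro _ ⟨z, hz, rfl⟩
    exact congrArg Subtype.val (hd z hz)) (x : A) ⟨x, hx, rfl⟩ (y : A) ⟨y, hy, rfl⟩
  exact Subtype.ext h1

theorem abC_mk [Fact p.Prime] [Finite A] {Q : Subgroup A} (hQ : IsPGroup p Q)
    {c : ↥(Subgroup.normalizer (Q : Set A))} (hc : Preg p (c : A)) (h : AbC p (c : A)) :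
    AbC p (QuotientGroup.mk c : NQ Q) := by
  intro P hP hd x hx y hy
  have hEp : IsPGroup p (pre Q P ⊓ Subgroup.centralizer {(c : A)} : Subgroup A) :=
    (isPGroup_pre hQ hP).to_le inf_le_left
  have hcomm := h (pre Q P ⊓ Subgroup.centralizer {(c : A)}) hEp
    (fun z hz => Subgroup.mem_centralizer_singleton_iff.1 hz.2)
  have hlift : ∀ s ∈ P, ∃ z : ↥(Subgroup.normalizer (Q : Set A)),
      (z : A) ∈ (pre Q P ⊓ Subgroup.centralizer {(c : A)} : Subgroup A) ∧
      (QuotientGroup.mk z : NQ Q) = s := by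
    intro s hs
    obtain ⟨z0, hz0⟩ := QuotientGroup.mk_surjective s
    have h1 : Commute (QuotientGroup.mk z0 : NQ Q) (QuotientGroup.mk c) := by
      rw [hz0]
      exact hd s hs
    obtain ⟨z, hz1, hz2⟩ := Bx.cent_lift hQ hc h1
    have h2 : (QuotientGroup.mk z : NQ Q) = s := hz1.trans hz0
    refine ⟨z, ⟨mem_pre.2 ⟨z.2, ?_⟩, Subgroup.mem_centralizer_singleton_iff.2 hz2⟩, h2⟩
    change (QuotientGroup.mk z : NQ Q) ∈ P
    rw [h2]
    exact hs
  obtain ⟨x', hx1, hx2⟩ := hlift x hx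
  obtain ⟨y', hy1, hy2⟩ := hlift y hy
  have h3 : x' * y' = y' * x' := Subtype.ext (hcomm x' hx1 y' hy1)
  rw [← hx2, ← hy2, ← QuotientGroup.mk_mul, ← QuotientGroup.mk_mul, h3]

end FamAux

theorem WFam_ab (p : ℕ) [Fact p.Prime] :
    WFam.{u} p (fun G _ m => Finite G ∧ IsWt p (⊤ : Subgroup G) m ∧ ∀ d, m d ≠ 0 → AbC p d) where
  wt := fun G _ _ m h => h.2.1
  sub := by
    intro G _ _ m h U
    refine ⟨inferInstance, IsWt_dn U h.2.1, ?_⟩
    intro d hd
    exact FamAux.abC_sub (h.2.2 (d : G) hd)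
  mb := by
    intro G _ _ m h Q hQ
    refine ⟨inferInstance, mb_isWt Q h.2.1, ?_⟩
    intro y hy
    unfold mb at hy
    obtain ⟨⟨c, hc⟩, hcm⟩ : ∃ c : {c : ↥(Subgroup.normalizer (Q : Set G)) //
        (QuotientGroup.mk c : NQ Q) = y}, m (c : G) ≠ 0 := by
      by_contra hcon
      push Not at hcon
      exact hy (finsum_eq_zero_of_forall_eq_zero hcon)
    have hcm' : m (c : G) ≠ 0 := hcm
    rw [← hc]
    exact FamAux.abC_mk hQ (h.2.1.reg _ hcm') (h.2.2 _ hcm')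

open TFinAux Rc.BiAux in
theorem gap_of_fam {p : ℕ} [Fact p.Prime] {k : Type*} [Field k] [IsAlgClosed k] [CharP k p]
    {A : Type*} [Group A] [Finite A] {b : MonoidAlgebra k A} (hb : IsBlock (⊤ : Subgroup A) b)
    (hab : ∀ d, b.coeff d ≠ 0 → AbC p d)
    (h : ∀ m : A → ℤ, IsWt p ⊤ m → (∀ d, m d ≠ 0 → AbC p d) →
      (p : ℤ) * (Nat.card A : ℤ) ∣ nL p (⊤ : Subgroup A) m - wS p m) :
    ∃ t : ℤ, gap p (⊤ : Subgroup A) ⊤ b = (p : ℚ) * t := by
  classical
  let _ : Fintype A := Fintype.ofFinite A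
  have hA : (Nat.card A : ℤ) ≠ 0 := by exact_mod_cast (Nat.card_pos (α := A)).ne'
  have hwt : ∀ c : k, c ≠ 0 → IsWt p (⊤ : Subgroup A) (lev b c) := by
    intro c hc
    constructor
    · intro g hg x
      have h1 : b.coeff (g * x * g⁻¹) = b.coeff x := hb.invBy g hg x
      unfold lev
      rw [h1]
    · intro x hx
      refine osima hb.mem hb.idem (x := x) (fun h0 => hx ?_)
      exact if_neg (fun h1 => hc (by rw [← h1, h0]))
  have hAb : ∀ c : k, c ≠ 0 → ∀ d, lev b c d ≠ 0 → AbC p d := by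
    intro c hc d hd
    refine hab d (fun h0 => hd ?_)
    exact if_neg (fun h1 => hc (by rw [← h1, h0]))
  have h1 : Lam p b = 0 := by
    rw [eq_sum_lev b, Lam_sum]
    refine Finset.sum_eq_zero (fun c hc => ?_)
    rw [Finset.mem_filter] at hc
    rw [Lam_smul]
    obtain ⟨t, ht, ht'⟩ := Lam_zel (k := k) (hwt c hc.2)
    have h2 := h _ (hwt c hc.2) (hAb c hc.2)
    rw [ht, mul_comm (p : ℤ)] at h2
    have h3 : (p : ℤ) ∣ t := Int.dvd_of_mul_dvd_mul_left hA h2
    have h4 : (t : k) = 0 := (CharP.intCast_eq_zero_iff k p t).2 h3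
    rw [← ht', h4, mul_zero]
  rw [Lam_blk hb] at h1
  obtain ⟨s, hs⟩ := (CharP.intCast_eq_zero_iff k p _).1 h1
  refine ⟨s, ?_⟩
  rw [gap_gp hb, hs]
  push_cast
  rfl

end Pool.Agent.Lib.P0c8ca5.Ab
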