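import Mathlib
import Pool.Agent.Lib.P0c8ca5Ab.Dis
import Pool.Agent.Lib.P0c8ca5Ab.Act
import Pool.Agent.Lib.P0c8ca5Ab.Blk

/-!
# LT: the transfer of `s1 ^ k` is trivial

PROOF. Let `T = s1^[k]`; `(T x).1 = (a, b a ^ k) = (a, cq k a b * b)` (`s1_iter`, `b a ^ k = (b a b⁻¹) ^ k b`) for `x.1 = (a, b)`. For `v ∈ Vg S k a b` let `φ x v = ⟨(a, v b), Pw_vb⟩`. Apply `prod_blocks` with `F q = trF κ T q.out`, `B q = range (v ↦ [φ q.out v])`. `h1`: `v = 1`. `h2`: let `x = q.out`, `q' = [φ x v]`, so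
`q'.out = m • φ x v`, `s = ι m`, `q'.out.1 = (s a s⁻¹, s (v b) s⁻¹)`. For `v' ∈ Vg` of this pair, `s⁻¹ v' s ∈ Vg S k a (v b) = Vg S k a b` (`Vg_cj`, `Vg_vb`) and `φ q'.out v' = m • φ x ((s⁻¹ v' s) v)`, so `B q' ⊆ B q`; conversely (`Vg_cj` for `s⁻¹` and the conjugated pair)
`φ x v'' = m⁻¹ • φ q'.out (s (v'' v⁻¹) s⁻¹)`. `h3`: `block_one` with `V = ↥(Vg S k a b)`, `Q = ↥(Qg S k a b)` (commutative, `Vg_comm`, `Qg_le_Vg`), `g = cq k a b`, `f y = y b y⁻¹ b⁻¹` (`cmt_mem`; a homomorphism: `y` commutes with `f z`, `Vg_comm_S`, `Qg_sub`; injective: `f y = 1` gives `y b = b y`, `fix_one`),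
`ι` the inverse of `ι` on `Qg ≤ S = range ι`; `h1`: `y (v b) y⁻¹ = v (y b y⁻¹) = f y v b`; `h2`: `cq_vb`; `h3`: if `(a, v b) = s (a, v' b) s⁻¹`, `s = ι m ∈ S`, then `s a = a s` and `v b = s v' b s⁻¹ = v' (s b s⁻¹)`, so `s b s⁻¹ b⁻¹ = v'⁻¹ v ∈ Vg`, `s ∈ Qg` by `mem_Qg_of` and `v = f s v'`; `h4`: `cq_pow`.
-/

namespace Pool.Agent.Lib.P0c8ca5.Ab

open MulAction

namespace LTAux

variable {G : Type*} [Group G] [Finite G] {p k : ℕ} [Fact p.Prime] {S : Subgroup G} {w : G}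

/-- the pair `(a, v b)` -/
def phi (hy : Hy p k S w) (x : XW p w) (v : ↥(Vg S k x.1.1 x.1.2)) : XW p w :=
  ⟨(x.1.1, (v : G) * x.1.2), Pw_vb hy x.2 v.2⟩

/-- the block of `x` -/
def blk (M : Type*) [CommGroup M] [MulAction M (XW p w)] (hy : Hy p k S w) (x : XW p w) :
    Set (orbitRel.Quotient M (XW p w)) :=
  Set.range (fun v : ↥(Vg S k x.1.1 x.1.2) => Quotient.mk (orbitRel M (XW p w)) (phi hy x v))

omit [Finite G] [Fact p.Prime] in
theorem mk_eq {M : Type*} [CommGroup M] [MulAction M (XW p w)] {x y : XW p w} {m : M}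
    (h : y = m • x) : Quotient.mk (orbitRel M (XW p w)) y = Quotient.mk (orbitRel M (XW p w)) x :=
  Quotient.sound (s := orbitRel M (XW p w)) ⟨m, h.symm⟩

theorem blk_smul_le {M : Type*} [CommGroup M] [MulAction M (XW p w)] (hy : Hy p k S w) (ι : M →* G)
    (hr : ∀ x : G, x ∈ S ↔ ∃ m : M, ι m = x)
    (hact : ∀ (m : M) (x : XW p w),
      (m • x).1 = (ι m * x.1.1 * (ι m)⁻¹, ι m * x.1.2 * (ι m)⁻¹)) (m : M) (x : XW p w) :
    blk M hy (m • x) ⊆ blk M hy x := by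
  rintro q ⟨⟨v, hv⟩, rfl⟩
  have hs : ι m ∈ S := (hr _).2 ⟨m, rfl⟩
  have e := hact m x
  have hv' : v ∈ Vg S k (ι m * x.1.1 * (ι m)⁻¹) (ι m * x.1.2 * (ι m)⁻¹) := by
    rw [e] at hv
    exact hv
  refine ⟨⟨(ι m)⁻¹ * v * ι m, Vg_cj hy x.2.cm hs hv'⟩, ?_⟩
  refine (mk_eq (m := m) ?_).symm
  apply Subtype.ext
  refine Eq.trans ?_ (hact m _).symm
  show ((m • x).1.1, v * (m • x).1.2) =
    (ι m * x.1.1 * (ι m)⁻¹, ι m * ((ι m)⁻¹ * v * ι m * x.1.2) * (ι m)⁻¹)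
  rw [e, Prod.mk.injEq]
  refine ⟨rfl, ?_⟩
  show v * (ι m * x.1.2 * (ι m)⁻¹) = ι m * ((ι m)⁻¹ * v * ι m * x.1.2) * (ι m)⁻¹
  group

theorem blk_smul {M : Type*} [CommGroup M] [MulAction M (XW p w)] (hy : Hy p k S w) (ι : M →* G)
    (hr : ∀ x : G, x ∈ S ↔ ∃ m : M, ι m = x)
    (hact : ∀ (m : M) (x : XW p w),
      (m • x).1 = (ι m * x.1.1 * (ι m)⁻¹, ι m * x.1.2 * (ι m)⁻¹)) (m : M) (x : XW p w) :
    blk M hy (m • x) = blk M hy x := by
  refine Set.Subset.antisymm (blk_smul_le hy ι hr hact m x) ?_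
  have h := blk_smul_le hy ι hr hact m⁻¹ (m • x)
  rwa [inv_smul_smul] at h

theorem blk_phi {M : Type*} [CommGroup M] [MulAction M (XW p w)] (hy : Hy p k S w) (x : XW p w)
    (v : ↥(Vg S k x.1.1 x.1.2)) : blk M hy (phi hy x v) = blk M hy x := by
  have hV : Vg S k (phi hy x v).1.1 (phi hy x v).1.2 = Vg S k x.1.1 x.1.2 :=
    Vg_vb hy x.2.cm v.2
  apply Set.Subset.antisymm
  · rintro q ⟨⟨u, hu⟩, rfl⟩
    rw [hV] at hu
    refine ⟨⟨u, hu⟩ * v, ?_⟩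
    refine congrArg (Quotient.mk (orbitRel M (XW p w))) (Subtype.ext ?_)
    show (x.1.1, u * (v : G) * x.1.2) = (x.1.1, u * ((v : G) * x.1.2))
    rw [mul_assoc]
  · rintro q ⟨u, rfl⟩
    refine ⟨⟨((u * v⁻¹ : ↥(Vg S k x.1.1 x.1.2)) : G), by rw [hV]; exact (u * v⁻¹).2⟩, ?_⟩
    refine congrArg (Quotient.mk (orbitRel M (XW p w))) (Subtype.ext ?_)
    show (x.1.1, (u : G) * (v : G)⁻¹ * ((v : G) * x.1.2)) = (x.1.1, (u : G) * x.1.2)
    rw [mul_assoc, inv_mul_cancel_left]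

omit [Finite G] [Fact p.Prime] in
theorem T_smul {M : Type*} [CommGroup M] [MulAction M (XW p w)] (ι : M →* G)
    (hact : ∀ (m : M) (x : XW p w),
      (m • x).1 = (ι m * x.1.1 * (ι m)⁻¹, ι m * x.1.2 * (ι m)⁻¹)) (n : ℕ) (m : M) (x : XW p w) :
    (s1^[n] (m • x) : XW p w) = m • (s1^[n] x : XW p w) := by
  apply Subtype.ext
  rw [s1_iter, hact, hact, s1_iter]
  simp only [Prod.mk.injEq, true_and]
  rw [conj_pow]
  group

omit [Finite G] in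
theorem pow_eq {a b : G} : b * a ^ k = cq k a b * b := by
  unfold cq
  rw [conj_pow]
  group

/-- the product over one block -/
theorem one_blk {M : Type*} [CommGroup M] [MulAction M (XW p w)] (hy : Hy p k S w) (ι : M →* G)
    (hι : Function.Injective ι) (hr : ∀ x : G, x ∈ S ↔ ∃ m : M, ι m = x)
    (hact : ∀ (m : M) (x : XW p w),
      (m • x).1 = (ι m * x.1.1 * (ι m)⁻¹, ι m * x.1.2 * (ι m)⁻¹))
    {κ : XW p w → M} (hκ : ∀ (m : M) (x : XW p w), κ (m • x) = m * κ x) (x : XW p w) :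
    ∏ᶠ q ∈ blk M hy x, trF κ (s1^[k] : XW p w → XW p w) q.out = 1 := by
  have hc := x.2.cm
  let cV : CommGroup ↥(Vg S k x.1.1 x.1.2) :=
    { (inferInstance : Group ↥(Vg S k x.1.1 x.1.2)) with
      mul_comm := fun u v => Subtype.ext (Vg_comm hy hc u.2 v.2) }
  let cQ : CommGroup ↥(Qg S k x.1.1 x.1.2) :=
    { (inferInstance : Group ↥(Qg S k x.1.1 x.1.2)) with
      mul_comm := fun u v => Subtype.ext (hy.ab _ (Qg_sub hy hc u.2).1 _ (Qg_sub hy hc v.2).1) }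
  have hle : Qg S k x.1.1 x.1.2 ≤ ι.range := by
    intro y hyq
    obtain ⟨m, hm⟩ := (hr y).1 (Qg_sub hy hc hyq).1
    exact ⟨m, hm⟩
  let e := MonoidHom.ofInjective hι
  let j : ↥(Qg S k x.1.1 x.1.2) →* M := e.symm.toMonoidHom.comp (Subgroup.inclusion hle)
  have hj : ∀ y, ι (j y) = (y : G) := by
    intro y
    have h1 : e (e.symm (Subgroup.inclusion hle y)) = Subgroup.inclusion hle y :=
      e.apply_symm_apply _
    exact congrArg Subtype.val h1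
  let f : ↥(Qg S k x.1.1 x.1.2) →* ↥(Vg S k x.1.1 x.1.2) :=
    { toFun := fun y => ⟨(y : G) * x.1.2 * (y : G)⁻¹ * x.1.2⁻¹, cmt_mem hy hc y.2⟩
      map_one' := Subtype.ext (by simp)
      map_mul' := by
        intro y z
        apply Subtype.ext
        have hyz := Qg_sub hy hc y.2
        have h1 := Vg_comm_S hy hc (cmt_mem hy hc z.2) hyz.1 hyz.2
        have h2 := Vg_comm hy hc (cmt_mem hy hc y.2) (cmt_mem hy hc z.2)
        show (y : G) * z * x.1.2 * ((y : G) * z)⁻¹ * x.1.2⁻¹ =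
          ((y : G) * x.1.2 * (y : G)⁻¹ * x.1.2⁻¹) * ((z : G) * x.1.2 * (z : G)⁻¹ * x.1.2⁻¹)
        rw [h2]
        calc (y : G) * z * x.1.2 * ((y : G) * z)⁻¹ * x.1.2⁻¹
            = (y : G) * ((z : G) * x.1.2 * (z : G)⁻¹ * x.1.2⁻¹) * x.1.2 * (y : G)⁻¹ * x.1.2⁻¹ := by
              group
          _ = ((z : G) * x.1.2 * (z : G)⁻¹ * x.1.2⁻¹) * (y : G) * x.1.2 * (y : G)⁻¹ * x.1.2⁻¹ := by
              rw [h1]
          _ = ((z : G) * x.1.2 * (z : G)⁻¹ * x.1.2⁻¹) *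
              ((y : G) * x.1.2 * (y : G)⁻¹ * x.1.2⁻¹) := by group }
  have hf : Function.Injective f := by
    rw [injective_iff_map_eq_one]
    intro y hy1
    have h1 : (y : G) * x.1.2 * (y : G)⁻¹ * x.1.2⁻¹ = 1 := congrArg Subtype.val hy1
    have h2 : (y : G) * x.1.2 = x.1.2 * y := mul_inv_eq_iff_eq_mul.1 (mul_inv_eq_one.1 h1)
    have hyz := Qg_sub hy hc y.2
    exact Subtype.ext (fix_one hy x.2 hyz.1 hyz.2 h2)
  refine block_one (X := XW p w) (V := ↥(Vg S k x.1.1 x.1.2)) (Q := ↥(Qg S k x.1.1 x.1.2)) hκ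
    (T_smul ι hact k) (phi hy x) (⟨cq k x.1.1 x.1.2, cq_mem_Vg⟩ : ↥(Vg S k x.1.1 x.1.2)) f hf j
    ?_ ?_ ?_ ?_
  · intro y v
    apply Subtype.ext
    rw [hact, hj]
    have hyz := Qg_sub hy hc y.2
    have h1 := Vg_comm_S hy hc v.2 hyz.1 hyz.2
    have h2 := Vg_comm hy hc (cmt_mem hy hc y.2) v.2
    show (x.1.1, ((y : G) * x.1.2 * (y : G)⁻¹ * x.1.2⁻¹) * (v : G) * x.1.2) =
      ((y : G) * x.1.1 * (y : G)⁻¹, (y : G) * ((v : G) * x.1.2) * (y : G)⁻¹)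
    rw [Prod.mk.injEq]
    constructor
    · rw [hyz.2, mul_assoc, mul_inv_cancel, mul_one]
    · rw [h2]
      calc (v : G) * ((y : G) * x.1.2 * (y : G)⁻¹ * x.1.2⁻¹) * x.1.2
          = (v : G) * (y : G) * x.1.2 * (y : G)⁻¹ := by group
        _ = (y : G) * (v : G) * x.1.2 * (y : G)⁻¹ := by rw [h1]
        _ = (y : G) * ((v : G) * x.1.2) * (y : G)⁻¹ := by group
  · intro v
    apply Subtype.ext
    rw [s1_iter]
    show (x.1.1, (v : G) * x.1.2 * x.1.1 ^ k) = (x.1.1, cq k x.1.1 x.1.2 * (v : G) * x.1.2)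
    rw [pow_eq, cq_vb hy hc v.2, mul_assoc]
  · intro v v' m hm
    have h0 := congrArg Subtype.val hm
    rw [hact] at h0
    have h1 : (x.1.1, (v : G) * x.1.2) =
        (ι m * x.1.1 * (ι m)⁻¹, ι m * ((v' : G) * x.1.2) * (ι m)⁻¹) := h0
    rw [Prod.mk.injEq] at h1
    obtain ⟨ha, hb⟩ := h1
    have hs : ι m ∈ S := (hr _).2 ⟨m, rfl⟩
    have hsa : ι m * x.1.1 = x.1.1 * ι m := (eq_mul_inv_iff_mul_eq.1 ha).symm
    have h2 := Vg_comm_S hy hc v'.2 hs hsa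
    have h3 : (v : G) * x.1.2 = (v' : G) * (ι m * x.1.2 * (ι m)⁻¹) := by
      rw [hb, ← mul_assoc, h2]
      group
    have h4 : ι m * x.1.2 * (ι m)⁻¹ * x.1.2⁻¹ = (v' : G)⁻¹ * (v : G) := by
      have h5 : (v : G) = (v' : G) * (ι m * x.1.2 * (ι m)⁻¹) * x.1.2⁻¹ :=
        eq_mul_inv_iff_mul_eq.2 h3
      rw [h5]
      group
    have h6 : ι m * x.1.2 * (ι m)⁻¹ * x.1.2⁻¹ ∈ Vg S k x.1.1 x.1.2 := by
      rw [h4]
      exact Subgroup.mul_mem _ (Subgroup.inv_mem _ v'.2) v.2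
    refine ⟨⟨ι m, mem_Qg_of hy hc hs hsa h6⟩, ?_⟩
    apply Subtype.ext
    show (v : G) = (ι m * x.1.2 * (ι m)⁻¹ * x.1.2⁻¹) * (v' : G)
    rw [Vg_comm hy hc h6 v'.2, h4]
    group
  · apply Subtype.ext
    exact cq_pow hy x.2

end LTAux

theorem trL_T {G : Type*} [Group G] [Finite G] {p k : ℕ} [Fact p.Prime] {S : Subgroup G} {w : G}
    (hy : Hy p k S w) {M : Type*} [CommGroup M] [MulAction M (XW p w)] (ι : M →* G)
    (hι : Function.Injective ι) (hr : ∀ x : G, x ∈ S ↔ ∃ m : M, ι m = x)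
    (hact : ∀ (m : M) (x : XW p w),
      (m • x).1 = (ι m * x.1.1 * (ι m)⁻¹, ι m * x.1.2 * (ι m)⁻¹))
    {κ : XW p w → M} (hκ : ∀ (m : M) (x : XW p w), κ (m • x) = m * κ x) :
    trL κ (s1^[k] : XW p w → XW p w) = 1 := by
  unfold trL
  refine prod_blocks (fun q : orbitRel.Quotient M (XW p w) =>
    trF κ (s1^[k] : XW p w → XW p w) q.out) (fun q => LTAux.blk M hy q.out) ?_ ?_ ?_
  · intro q
    refine ⟨1, ?_⟩
    have h1 : LTAux.phi hy q.out 1 = q.out := by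
      apply Subtype.ext
      show (q.out.1.1, (1 : G) * q.out.1.2) = q.out.1
      rw [one_mul]
    show Quotient.mk (orbitRel M (XW p w)) (LTAux.phi hy q.out 1) = q
    rw [h1]
    exact Quotient.out_eq q
  · rintro q q' ⟨v, rfl⟩
    set y := LTAux.phi hy q.out v with hy'
    have h1 : ∃ m : M, m • y = (Quotient.mk (orbitRel M (XW p w)) y).out := by
      have h := Quotient.mk_out (s := orbitRel M (XW p w)) y
      obtain ⟨m, hm⟩ := h
      exact ⟨m, hm⟩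
    obtain ⟨m, hm⟩ := h1
    show LTAux.blk M hy (Quotient.mk (orbitRel M (XW p w)) y).out = LTAux.blk M hy q.out
    rw [← hm, LTAux.blk_smul hy ι hr hact, hy', LTAux.blk_phi]
  · intro q
    exact LTAux.one_blk hy ι hι hr hact hκ q.out

end Pool.Agent.Lib.P0c8ca5.Ab
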