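import Mathlib
import Pool.Agent.Lib.P0c8ca5Ab.LT

/-!
# K1: the key statement

PROOF. `M = ↥S` with `cgS hy` and `actS hy` (or a general commutative group `M` with `ι : M →* G`, as in `trL_T`, `hact` holds by definition). The action is free: `fix_one`. `exists_kap` gives `κ`. With `L = trL κ`: `s1`, `s2` are equivariant (`s1_cj`, `s2_cj`) and bijective; `trL_comp` and `braid` give `L s1 * (L s2 * L s1) = L s2 * (L s1 * L s2)`,
so `L s1 = L s2 = l` and `L (s1 ∘ s2 ∘ s1) = l ^ 3`. Let `r = orderOf d`: `w ^ r = u ^ r` (`u`, `d` commute), so by `braid4r` the `4 r`-th iterate of `s1 ∘ s2 ∘ s1` is the action of `(u ^ r)⁻¹ ∈ S`; `trL_iter`, `trL_smul`: `l ^ (12 r) = (u ^ r)⁻¹ ^ n'`, `n' = Nat.card (orbits)`. `trL_T`, `trL_iter`: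
`l ^ k = 1`. So `u ^ (r * n' * k) = 1`, `p ∣ r * n' * k`, `p ∤ r` (`hd`), `p ∤ k`, so `p ∣ n'`, and `card_free`.
-/

namespace Pool.Agent.Lib.P0c8ca5.Ab

theorem K1 {G : Type*} [Group G] [Finite G] {p k : ℕ} [Fact p.Prime] {S : Subgroup G} {w u d : G}
    (hy : Hy p k S w) (hk : ¬ p ∣ k) (hu : u ∈ S) (huo : orderOf u = p) (hw : w = u * d)
    (hc : u * d = d * u) (hd : Preg p d) : p * Nat.card S ∣ Nat.card (XW p w) := by
  classical
  have hp : p.Prime := Fact.out
  let _ := cgS hy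
  let _ := actS hy
  have hsm : ∀ (m : ↥S) (x : XW p w),
      (m • x).1 = ((m : G) * x.1.1 * (m : G)⁻¹, (m : G) * x.1.2 * (m : G)⁻¹) := fun m x => rfl
  have hfree : ∀ (m : ↥S) (x : XW p w), m • x = x → m = 1 := by
    intro m x h
    have h1 := congrArg Subtype.val h
    rw [hsm] at h1
    have h2 : (m : G) * x.1.1 * (m : G)⁻¹ = x.1.1 := congrArg Prod.fst h1
    have h3 : (m : G) * x.1.2 * (m : G)⁻¹ = x.1.2 := congrArg Prod.snd h1
    apply Subtype.ext
    exact fix_one hy x.2 m.2 (mul_inv_eq_iff_eq_mul.1 h2) (mul_inv_eq_iff_eq_mul.1 h3)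
  obtain ⟨κ, hκ⟩ := exists_kap hfree
  have e1 : ∀ (m : ↥S) (x : XW p w), s1 (m • x) = m • s1 x := fun m x => s1_cj _ _ x
  have e2 : ∀ (m : ↥S) (x : XW p w), s2 (m • x) = m • s2 x := fun m x => s2_cj _ _ x
  have b1 : Function.Bijective (s1 : XW p w → XW p w) := s1_bij
  have b2 : Function.Bijective (s2 : XW p w → XW p w) := s2_bij
  have e21 : ∀ (m : ↥S) (x : XW p w), s2 (s1 (m • x)) = m • s2 (s1 x) := fun m x => by
    rw [e1, e2]
  have e12 : ∀ (m : ↥S) (x : XW p w), s1 (s2 (m • x)) = m • s1 (s2 x) := fun m x => by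
    rw [e2, e1]
  have e121 : ∀ (m : ↥S) (x : XW p w), s1 (s2 (s1 (m • x))) = m • s1 (s2 (s1 x)) := fun m x => by
    rw [e1, e2, e1]
  have b21 : Function.Bijective (fun x : XW p w => s2 (s1 x)) := b2.comp b1
  have b12 : Function.Bijective (fun x : XW p w => s1 (s2 x)) := b1.comp b2
  have b121 : Function.Bijective (fun x : XW p w => s1 (s2 (s1 x))) := b1.comp b21
  have l21 : trL κ (fun x : XW p w => s2 (s1 x)) = trL κ s2 * trL κ s1 := trL_comp hκ e2 e1 b1
  have l12 : trL κ (fun x : XW p w => s1 (s2 x)) = trL κ s1 * trL κ s2 := trL_comp hκ e1 e2 b2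
  have l121 : trL κ (fun x : XW p w => s1 (s2 (s1 x))) = trL κ s1 * (trL κ s2 * trL κ s1) := by
    rw [← l21]
    exact trL_comp hκ e1 e21 b21
  have l212 : trL κ (fun x : XW p w => s2 (s1 (s2 x))) = trL κ s2 * (trL κ s1 * trL κ s2) := by
    rw [← l12]
    exact trL_comp hκ e2 e12 b12
  have hbr : (fun x : XW p w => s1 (s2 (s1 x))) = (fun x : XW p w => s2 (s1 (s2 x))) :=
    funext fun x => braid x
  have hll : trL κ (s1 : XW p w → XW p w) = trL κ s2 := by
    rw [hbr, l212] at l121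
    have h1 : trL κ (s2 : XW p w → XW p w) * (trL κ s1 * trL κ s2)
        = (trL κ s1 * trL κ s2) * trL κ s2 := mul_comm _ _
    have h2 : trL κ (s1 : XW p w → XW p w) * (trL κ s2 * trL κ s1)
        = (trL κ s1 * trL κ s2) * trL κ s1 := (mul_assoc _ _ _).symm
    rw [h1, h2] at l121
    exact (mul_left_cancel l121).symm
  have l3 : trL κ (fun x : XW p w => s1 (s2 (s1 x))) = trL κ (s1 : XW p w → XW p w) ^ 3 := by
    rw [l121, ← hll, pow_succ, pow_two, mul_assoc]
  -- the power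
  have hwr : w ^ orderOf d = u ^ orderOf d := by
    rw [hw, (show Commute u d from hc).mul_pow, pow_orderOf_eq_one, mul_one]
  have hur : u ^ orderOf d ∈ S := pow_mem hu _
  have hit : (fun y : XW p w => s1 (s2 (s1 y)))^[4 * orderOf d]
      = fun x : XW p w => (⟨u ^ orderOf d, hur⟩ : ↥S)⁻¹ • x := by
    funext x
    apply Subtype.ext
    rw [braid4r, hsm, hwr]
    simp
  have l12r := trL_iter hκ e121 b121 (4 * orderOf d)
  rw [hit, trL_smul hκ, l3] at l12r
  have lk : trL κ (s1 : XW p w → XW p w) ^ k = 1 := by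
    rw [← trL_iter hκ e1 b1 k]
    refine trL_T hy S.subtype S.subtype_injective ?_ hsm hκ
    intro x
    constructor
    · intro hx
      exact ⟨⟨x, hx⟩, rfl⟩
    · rintro ⟨m, rfl⟩
      exact m.2
  -- the conclusion
  have h1 : (((⟨u ^ orderOf d, hur⟩ : ↥S)⁻¹) ^
      Nat.card (MulAction.orbitRel.Quotient ↥S (XW p w))) ^ k = 1 := by
    rw [l12r, ← pow_mul, ← pow_mul,
      show 3 * (4 * orderOf d * k) = k * (3 * (4 * orderOf d)) by ring, pow_mul, lk, one_pow]
  have h2 : (((u ^ orderOf d)⁻¹) ^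
      Nat.card (MulAction.orbitRel.Quotient ↥S (XW p w))) ^ k = 1 := by
    have h3 := congrArg (Subtype.val : ↥S → G) h1
    simpa using h3
  have h3 : u ^ (orderOf d * Nat.card (MulAction.orbitRel.Quotient ↥S (XW p w)) * k) = 1 := by
    rw [inv_pow, inv_pow, inv_eq_one] at h2
    rw [pow_mul, pow_mul]
    exact h2
  have h4 : p ∣ orderOf d * Nat.card (MulAction.orbitRel.Quotient ↥S (XW p w)) * k := by
    have h6 := orderOf_dvd_of_pow_eq_one h3
    rwa [huo] at h6
  have h5 : p ∣ Nat.card (MulAction.orbitRel.Quotient ↥S (XW p w)) := by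
    rcases hp.dvd_mul.1 h4 with h | h
    · rcases hp.dvd_mul.1 h with h' | h'
      · exact absurd h' hd
      · exact h'
    · exact absurd h hk
  rw [card_free (M := ↥S) hfree, mul_comm]
  exact mul_dvd_mul_left _ h5

end Pool.Agent.Lib.P0c8ca5.Ab
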