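import Mathlib
import Pool.Agent.Lib.P0c8ca5Ab.K1
import Pool.Agent.Lib.P0c8ca5Ab.Cls
import Pool.Agent.Lib.P0c8ca5Gs.PrT

/-!
# Sum: the pairs of the criterion

PROOF. `sx p m w⁻¹` is `m (pr p w)⁻¹` if `w (pr p w)⁻¹` has order `p` and `0` otherwise (`PrTAux.sx_inv`). As in `Pt_cls`: `Gs.bT p ⊤ (Gs.Pt p m) = ∑ᶠ w, sx p m w⁻¹ * Nat.card (XW p w)` (pairs `(t 0, t 1)` sorted by the commutator; `Opr p ⊤ ≤ closure {t 0, t 1}` iff all p-regular elements are in it). Apply `cls_sum` to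
`f w = sx p m w⁻¹ * Nat.card (XW p w)`: a class function (conjugation of pairs, `CF_sx`). If `f w ≠ 0`, let `d = pr p w` (p-regular, a power of `w`), `u = w d⁻¹` (order `p`, a power of `w`), `S` = the image in `G` of a Sylow p-subgroup of `centralizer {w}` (`Nat.card S = ordProj[p] ..`, `Sylow.card_eq_multiplicity`); `u ∈ S`:
`u` is in the center of `centralizer {w}` and a p-element. `S` is abelian: its elements commute with `w`, so with `d⁻¹`, and `m d⁻¹ ≠ 0`, `hab`. `k = ordCompl[p] (Nat.card G)`: `g ^ k` is a p-element, `¬ p ∣ k`. `K1`.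
-/

namespace Pool.Agent.Lib.P0c8ca5.Ab

namespace SumAux

section
variable {G : Type*} [Group G] {p : ℕ}

/-- conjugation of the pairs -/
theorem Pw_cjg {w a b : G} (s : G) (h : Pw p w a b) :
    Pw p (s * w * s⁻¹) (s * a * s⁻¹) (s * b * s⁻¹) := by
  constructor
  · have h1 : cmt (s * a * s⁻¹) (s * b * s⁻¹) = s * cmt a b * s⁻¹ := by
      unfold cmt
      group
    rw [h1, h.cm]
  · intro g hg
    have h2 : Preg p (MulAut.conj s⁻¹ g) := by
      unfold Preg at hg ⊢
      rwa [MulEquiv.orderOf_eq]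
    have h3 := h.ge _ h2
    have h4 : MulAut.conj s (MulAut.conj s⁻¹ g) = g := by
      simp [MulAut.conj_apply, mul_assoc]
    rw [← h4]
    have h5 : MulAut.conj s (MulAut.conj s⁻¹ g) ∈
        (Subgroup.closure ({a, b} : Set G)).map (MulAut.conj s).toMonoidHom :=
      Subgroup.mem_map.2 ⟨_, h3, rfl⟩
    rw [MonoidHom.map_closure] at h5
    refine Subgroup.closure_mono ?_ h5
    rintro x ⟨y, hy, rfl⟩
    simp only [Set.mem_insert_iff, Set.mem_singleton_iff] at hy ⊢
    rcases hy with rfl | rfl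
    · left
      simp [MulAut.conj_apply]
    · right
      simp [MulAut.conj_apply]

theorem card_le [Finite G] (s w : G) :
    Nat.card (XW p w) ≤ Nat.card (XW p (s * w * s⁻¹)) := by
  let F : XW p w → XW p (s * w * s⁻¹) := fun x =>
    ⟨(s * x.1.1 * s⁻¹, s * x.1.2 * s⁻¹), Pw_cjg s x.2⟩
  refine Nat.card_le_card_of_injective F ?_
  rintro ⟨⟨a, b⟩, hx⟩ ⟨⟨a', b'⟩, hy⟩ h
  have h1 := congrArg Subtype.val h
  simp only [F, Prod.mk.injEq] at h1
  obtain ⟨h2, h3⟩ := h1
  have h4 := mul_left_cancel (mul_right_cancel h2)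
  have h5 := mul_left_cancel (mul_right_cancel h3)
  subst h4
  subst h5
  rfl

theorem card_cj [Finite G] (s w : G) :
    Nat.card (XW p (s * w * s⁻¹)) = Nat.card (XW p w) := by
  refine le_antisymm ?_ (card_le s w)
  have h := card_le (p := p) s⁻¹ (s * w * s⁻¹)
  have h1 : s⁻¹ * (s * w * s⁻¹) * s⁻¹⁻¹ = w := by group
  rwa [h1] at h

/-- the sum over the pairs, sorted by the commutator -/
theorem bT_eq [Finite G] (m : G → ℤ) :
    Gs.bT p (⊤ : Subgroup G) (Gs.Pt p m)
      = ∑ᶠ w : G, Gs.sx p m w⁻¹ * (Nat.card (XW p w) : ℤ) := by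
  classical
  have : Fintype G := Fintype.ofFinite G
  unfold Gs.bT
  rw [← finsum_comp_equiv (finTwoArrowEquiv G).symm, finsum_eq_sum_of_fintype,
    finsum_eq_sum_of_fintype]
  have h1 : ∀ w : G, Gs.sx p m w⁻¹ * (Nat.card (XW p w) : ℤ)
      = ∑ y : G × G, if Pw p w y.1 y.2 then Gs.sx p m w⁻¹ else 0 := by
    intro w
    have h2 : Nat.card (XW p w) = (Finset.univ.filter fun y : G × G => Pw p w y.1 y.2).card := by
      unfold XW
      rw [Nat.card_eq_fintype_card, Fintype.card_subtype]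
    rw [h2, Finset.card_filter, Nat.cast_sum, Finset.mul_sum]
    refine Finset.sum_congr rfl fun y _ => ?_
    by_cases h3 : Pw p w y.1 y.2
    · rw [if_pos h3, if_pos h3, Nat.cast_one, mul_one]
    · rw [if_neg h3, if_neg h3, Nat.cast_zero, mul_zero]
  rw [Finset.sum_congr rfl fun w _ => h1 w, Finset.sum_comm]
  refine Finset.sum_congr rfl fun y _ => ?_
  rw [Gs.PrTAux.gT_two, Gs.PrTAux.Pt_two,
    Finset.sum_eq_single (cmt y.1 y.2) (fun w _ hw => if_neg fun h => hw h.cm.symm)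
      (fun h => absurd (Finset.mem_univ _) h)]
  refine if_congr ?_ rfl rfl
  rw [ClsFAux.opr_le_iff]
  exact ⟨fun h => ⟨rfl, h.2⟩, fun h => ⟨le_top, h.ge⟩⟩

/-- the fibre over `w` -/
theorem fib [Fact p.Prime] [Finite G] (hO : NoP p (⊤ : Subgroup G)) {w : G}
    (hw : orderOf (w * (pr p w)⁻¹) = p) (hA : AbC p (pr p w)⁻¹) :
    p * ordProj[p] (Nat.card (Subgroup.centralizer ({w} : Set G))) ∣ Nat.card (XW p w) := by
  classical
  let C : Subgroup G := Subgroup.centralizer ({w} : Set G)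
  have hC : ∀ x : G, x ∈ C ↔ x * w = w * x := by
    intro x
    rw [Subgroup.mem_centralizer_singleton_iff]
  obtain ⟨P⟩ : Nonempty (Sylow p C) := inferInstance
  have hcard : Nat.card ((P : Subgroup C).map C.subtype) = ordProj[p] (Nat.card C) := by
    rw [Nat.card_congr ((P : Subgroup C).equivMapOfInjective C.subtype
      C.subtype_injective).symm.toEquiv]
    exact P.card_eq_multiplicity
  have hcw : ∀ x : G, x * w = w * x → x * (pr p w) = (pr p w) * x := by
    intro x hx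
    unfold pr
    exact (show Commute x w from hx).pow_right _
  have hu : ∀ x : G, x * w = w * x → x * (w * (pr p w)⁻¹) = (w * (pr p w)⁻¹) * x := by
    intro x hx
    exact (show Commute x w from hx).mul_right (show Commute x (pr p w) from hcw x hx).inv_right
  have huC : w * (pr p w)⁻¹ ∈ C := by
    rw [hC]
    exact (hu w rfl).symm
  have huS : w * (pr p w)⁻¹ ∈ (P : Subgroup C).map C.subtype := by
    have hn : (Subgroup.zpowers (⟨_, huC⟩ : C)).Normal := by
      refine ⟨fun n hn g => ?_⟩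
      obtain ⟨i, rfl⟩ := Subgroup.mem_zpowers_iff.1 hn
      have h1 : Commute g (⟨_, huC⟩ : C) := Subtype.ext (hu g ((hC g).1 g.2))
      rw [(h1.zpow_right i).eq, mul_assoc, mul_inv_cancel, mul_one]
      exact Subgroup.zpow_mem_zpowers _ _
    have hp : IsPGroup p (Subgroup.zpowers (⟨_, huC⟩ : C)) := by
      refine IsPGroup.of_card (n := 1) ?_
      rw [Nat.card_zpowers, pow_one, ← Subgroup.orderOf_coe]
      exact hw
    have h2 := P.is_maximal' (IsPGroup.to_sup_of_normal_right P.isPGroup' hp) le_sup_left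
    refine Subgroup.mem_map.2 ⟨⟨_, huC⟩, ?_, rfl⟩
    rw [← h2]
    exact (le_sup_right : _ ≤ (P : Subgroup C) ⊔ _) (Subgroup.mem_zpowers _)
  have hS : ∀ x ∈ (P : Subgroup C).map C.subtype, x * w = w * x := by
    rintro x ⟨y, -, rfl⟩
    exact (hC _).1 y.2
  have hpS : IsPGroup p ((P : Subgroup C).map C.subtype) := P.isPGroup'.map _
  have hy : Hy p (ordCompl[p] (Nat.card G)) ((P : Subgroup C).map C.subtype) w :=
    { no := hO
      pS := hpS
      ab := hA _ hpS fun x hx => (show Commute x (pr p w) from hcw x (hS x hx)).inv_right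
      cw := hS
      pk := fun g => ⟨(Nat.card G).factorization p, by
        rw [← pow_mul, mul_comm, Nat.ordProj_mul_ordCompl_eq_self, pow_card_eq_one']⟩ }
  have h3 := K1 hy (Nat.not_dvd_ordCompl (Fact.out : p.Prime) Nat.card_pos.ne') huS hw
    (d := pr p w) (by group) ((hcw _ ((hC _).1 huC))) (preg_pr w)
  rw [hcard] at h3
  exact h3

end

end SumAux

open SumAux

theorem Pt_ab {p : ℕ} [Fact p.Prime] {G : Type*} [Group G] [Finite G]
    (hO : NoP p (⊤ : Subgroup G)) {m : G → ℤ} (hm : IsWt p ⊤ m) (hab : ∀ d, m d ≠ 0 → AbC p d) :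
    (p : ℤ) * (ordProj[p] (Nat.card G) : ℕ) ∣ Gs.bT p (⊤ : Subgroup G) (Gs.Pt p m) := by
  rw [bT_eq]
  refine cls_sum ?_ ?_
  · intro g w
    have h1 : (g * w * g⁻¹)⁻¹ = g * w⁻¹ * g⁻¹ := by group
    beta_reduce
    rw [h1, Gs.CF_sx (Bx.CF_of_wt hm), card_cj]
  · intro w
    obtain ⟨s1, s2⟩ := Gs.PrTAux.sx_inv (p := p) m w
    by_cases h1 : orderOf (w * (pr p w)⁻¹) = p
    · by_cases h2 : m (pr p w)⁻¹ = 0
      · rw [s1 h1, h2, zero_mul]
        exact dvd_zero _
      · refine Dvd.dvd.mul_left ?_ _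
        exact_mod_cast fib hO h1 (hab _ h2)
    · rw [s2 h1, zero_mul]
      exact dvd_zero _

end Pool.Agent.Lib.P0c8ca5.Ab
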