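import Mathlib
import Pool.Agent.Lib.P0c8ca5Ab.Sum
import Pool.Agent.Lib.P0c8ca5Ab.Fam
import Pool.Agent.Lib.P0c8ca5V.GapM
import Pool.Agent.Lib.P0c8ca5V.GapT
import Pool.Agent.Lib.P0c8ca5E.SmallG
import Pool.Agent.Lib.P0c8ca5Bx.FinD

/-! # Fin: Navarro's equality modulo p for blocks with abelian defect groups -/

namespace Pool.Agent.Lib.P0c8ca5.Ab

open MonoidAlgebra

universe u v

/-- the relation for the weights with abelian local p-subgroups -/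
theorem rel_ab {p : ℕ} [Fact p.Prime] (G : Type u) [Group G] [Finite G] (m : G → ℤ)
    (hm : IsWt p (⊤ : Subgroup G) m) (hab : ∀ d, m d ≠ 0 → AbC p d) :
    (p : ℤ) * (Nat.card G : ℤ) ∣ nL p (⊤ : Subgroup G) m - wS p m := by
  have hC : SecCl (fun (G : Type u) (_ : Group G) => True) :=
    ⟨fun _ _ _ _ _ _ _ => trivial, fun _ _ _ _ _ _ _ => trivial⟩
  refine (Gs.relS (p := p) hC (WFam_ab.{u} p) (Gs.TW_Pt p)).2 ?_ G trivial m
    ⟨inferInstance, hm, hab⟩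
  intro G _ _ _ hO m hWm
  exact Pt_ab hO hWm.2.1 hWm.2.2

theorem gap_abel {p : ℕ} [Fact p.Prime] {k : Type v} [Field k] [IsAlgClosed k] [CharP k p]
    {Γ : Type u} [Group Γ] [Finite Γ] (G : Subgroup Γ) [G.Normal] (hΓ : IsPGroup p (Γ ⧸ G))
    {e : MonoidAlgebra k Γ} (he : IsBlock G e) (hinv : InvBy ⊤ e) {D : Subgroup Γ}
    (hD : IsDefectGroup p G e D) (hab : ∀ x ∈ D, ∀ y ∈ D, x * y = y * x) :
    ∃ t : ℤ, gap p G ⊤ e = (p : ℚ) * t := by
  have : Fintype Γ := Fintype.ofFinite Γ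
  obtain ⟨t, ht⟩ := gap_mod hΓ he hinv
  have he' := dn_isBlock he
  have key : ∃ t : ℤ, gap p (⊤ : Subgroup ↥G) ⊤ (dn G e) = (p : ℚ) * t := by
    refine gap_of_fam he' ?_ (fun m hm h => rel_ab (↥G) m hm h)
    intro d hd P hP hPd
    have hbr : HasBr (P.map G.subtype) e := by
      refine ⟨(d : Γ), ?_, hd⟩
      rw [Subgroup.mem_centralizer_iff]
      rintro _ ⟨z, hz, rfl⟩
      exact congrArg Subtype.val (hPd z hz)
    obtain ⟨D', hD', hle⟩ := exists_defect (p := p) (N := G) (e := e) (by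
      rintro _ ⟨z, _, rfl⟩
      exact z.2) (hP.map G.subtype) hbr
    obtain ⟨g, _, rfl⟩ := Hy.defect_conj_sub he hD hD'
    intro x hx y hy
    have hx' : (x : Γ) ∈ cg g D := hle ⟨x, hx, rfl⟩
    have hy' : (y : Γ) ∈ cg g D := hle ⟨y, hy, rfl⟩
    obtain ⟨x0, hx0, hxe⟩ := hx'
    obtain ⟨y0, hy0, hye⟩ := hy'
    apply Subtype.ext
    rw [Subgroup.coe_mul, Subgroup.coe_mul, ← hxe, ← hye, ← map_mul, ← map_mul, hab x0 hx0 y0 hy0]
  obtain ⟨t', ht'⟩ := key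
  rw [gap_transport he] at ht'
  refine ⟨t + t', ?_⟩
  rw [ht, ht']
  push_cast
  ring

end Pool.Agent.Lib.P0c8ca5.Ab
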